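import Pool.Agent.Helper282.Dist

set_option autoImplicit false

namespace Pool.Agent.H282Dist

variable {K : Type*} [DivisionRing K] {A : Subring K} {M : Set K} {ι : Type*}

/-- `n`-element right partitions -/
theorem part (hR : RP A) (a : ι → K) (ha : ∀ i, a i ≠ 0) (s : Finset ι)
    (hs : s.Nonempty) :
    ∃ r : ι → K, (∀ i ∈ s, r i ∈ A) ∧ ∑ i ∈ s, r i = 1 ∧
      ∀ i ∈ s, ∀ j ∈ s, a j * (a i)⁻¹ * r i ∈ A := by
  classical
  induction s using Finset.induction_on with
  | empty => exact absurd hs (by simp)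
  | insert k s hk ih =>
    rcases s.eq_empty_or_nonempty with rfl | hs'
    · refine ⟨fun _ => 1, by simp [A.one_mem], by simp, ?_⟩
      intro i hi j hj
      simp only [insert_empty_eq, Finset.mem_singleton] at hi hj
      subst hi; subst hj
      rw [mul_inv_cancel₀ (ha _), one_mul]; exact A.one_mem
    obtain ⟨r, hrA, hr1, hra⟩ := ih hs'
    have hσ : ∀ i : ι, ∃ σ : K, i ∈ s → σ ∈ A ∧ a k * (a i)⁻¹ * r i * σ ∈ A ∧
        ∀ j ∈ insert k s, a j * (a k)⁻¹ * r i * (1 - σ) ∈ A := by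
      intro i
      by_cases hi : i ∈ s
      swap
      · exact ⟨0, fun h => absurd h hi⟩
      by_cases hri : r i = 0
      · refine ⟨1, fun _ => ⟨A.one_mem, ?_, ?_⟩⟩
        · rw [hri]; simp [A.zero_mem]
        · intro j _; rw [hri]; simp [A.zero_mem]
      have hx : (r i)⁻¹ * (a k * (a i)⁻¹ * r i) ≠ 0 :=
        mul_ne_zero (inv_ne_zero hri) (mul_ne_zero (mul_ne_zero (ha k) (inv_ne_zero (ha i))) hri)
      obtain ⟨σ, hσ, h1, h2⟩ := hR _ hx
      refine ⟨σ, fun _ => ⟨hσ, ?_, ?_⟩⟩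
      · have : a k * (a i)⁻¹ * r i * σ = r i * ((r i)⁻¹ * (a k * (a i)⁻¹ * r i) * σ) := by
          rw [mul_assoc (r i)⁻¹, mul_inv_cancel_left₀ hri]
        rw [this]; exact A.mul_mem (hrA i hi) h1
      · have e2 : ((r i)⁻¹ * (a k * (a i)⁻¹ * r i))⁻¹ = (r i)⁻¹ * (a i * (a k)⁻¹ * r i) := by
          simp [mul_inv_rev, mul_assoc]
        rw [e2] at h2
        have h3 : ∀ j, a j * (a k)⁻¹ * r i * (1 - σ)
            = (a j * (a i)⁻¹ * r i) * ((r i)⁻¹ * (a i * (a k)⁻¹ * r i) * (1 - σ)) := by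
          intro j
          simp only [mul_assoc]
          rw [mul_inv_cancel_left₀ hri, inv_mul_cancel_left₀ (ha i)]
        intro j hj
        rcases Finset.mem_insert.1 hj with rfl | hj
        · rw [mul_inv_cancel₀ (ha _), one_mul]
          have h4 : r i * (1 - σ) ∈ A := A.mul_mem (hrA i hi) (A.sub_mem A.one_mem hσ)
          exact h4
        · rw [h3 j]; exact A.mul_mem (hra i hi j hj) h2
    choose σ hσ using hσ
    refine ⟨fun i => if i = k then ∑ j ∈ s, r j * (1 - σ j) else r i * σ i, ?_, ?_, ?_⟩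
    · intro i hi
      by_cases hik : i = k
      · simp only [hik, if_true]
        exact A.sum_mem fun j hj =>
          A.mul_mem (hrA j hj) (A.sub_mem A.one_mem (hσ j hj).1)
      · simp only [hik, if_false]
        have his : i ∈ s := by
          rcases Finset.mem_insert.1 hi with h | h
          · exact absurd h hik
          · exact h
        exact A.mul_mem (hrA i his) (hσ i his).1
    · rw [Finset.sum_insert hk, if_pos rfl]
      have : ∑ x ∈ s, (if x = k then ∑ j ∈ s, r j * (1 - σ j) else r x * σ x)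
          = ∑ x ∈ s, r x * σ x := by
        refine Finset.sum_congr rfl fun x hx => ?_
        rw [if_neg]; rintro rfl; exact hk hx
      rw [this, ← Finset.sum_add_distrib]
      refine Eq.trans (Finset.sum_congr rfl fun x _ => ?_) hr1
      noncomm_ring
    · intro i hi j hj
      by_cases hik : i = k
      · subst hik
        simp only [if_true]
        rw [Finset.mul_sum]
        refine A.sum_mem fun l hl => ?_
        rw [← mul_assoc]
        exact (hσ l hl).2.2 j hj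
      · simp only [hik, if_false]
        have his : i ∈ s := by
          rcases Finset.mem_insert.1 hi with h | h
          · exact absurd h hik
          · exact h
        rw [← mul_assoc]
        rcases Finset.mem_insert.1 hj with rfl | hj
        · exact (hσ i his).2.1
        · exact A.mul_mem (hra i his j hj) (hσ i his).1

theorem eps (F : Finset (Set K)) (hF : ∀ M' ∈ F, Pl A M') (hM : Pl A M) (hMF : M ∉ F) :
    ∃ ε ∈ A, 1 - ε ∈ M ∧ ∀ M' ∈ F, ε ∈ M' := by
  classical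
  induction F using Finset.induction_on with
  | empty => exact ⟨1, A.one_mem, by rw [sub_self]; exact hM.zero, by simp⟩
  | insert N F hN ih =>
    obtain ⟨ε, hε, h1, h2⟩ := ih (fun M' hM' => hF M' (Finset.mem_insert_of_mem hM'))
      (fun h => hMF (Finset.mem_insert_of_mem h))
    have hNP : Pl A N := hF N (Finset.mem_insert_self _ _)
    have hne : N ≠ M := by rintro rfl; exact hMF (Finset.mem_insert_self _ _)
    have : ¬ N ⊆ M := fun h => hne (hM.eq_of_le hNP h)
    obtain ⟨y, hyN, hyM⟩ := Set.not_subset.1 this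
    obtain ⟨b, hb, hb1, _⟩ := hM.inv y (hNP.sub y hyN) hyM
    refine ⟨ε * (b * y), A.mul_mem hε (A.mul_mem hb (hNP.sub y hyN)), ?_, ?_⟩
    · have : 1 - ε * (b * y) = (1 - ε) + ε * (1 - b * y) := by noncomm_ring
      rw [this]
      exact hM.add _ h1 _ (hM.lmul _ hε _ hb1)
    · intro M' hM'
      rcases Finset.mem_insert.1 hM' with rfl | hM'
      · exact hNP.lmul _ hε _ (hNP.lmul _ hb _ hyN)
      · exact (hF M' (Finset.mem_insert_of_mem hM')).rmul _
          (A.mul_mem hb (hNP.sub y hyN)) _ (h2 M' hM')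

/-- admissible weights -/
structure Adm (A : Subring K) [Fintype ι] (a r : ι → K) : Prop where
  mem : ∀ i, r i ∈ A
  sum : ∑ i, r i = 1
  adm : ∀ i j, a j * (a i)⁻¹ * r i ∈ A

theorem exists_adm [Fintype ι] [Nonempty ι] (hR : RP A) (a : ι → K) (ha : ∀ i, a i ≠ 0)
    (F : Finset (Set K)) (hF : ∀ M ∈ F, Pl A M) :
    ∃ r : ι → K, Adm A a r ∧ ∀ M ∈ F, ∃ i, 1 - r i ∈ M ∧ ∀ j, j ≠ i → r j ∈ M := by
  classical
  induction F using Finset.induction_on with
  | empty =>
    obtain ⟨r, h1, h2, h3⟩ := part hR a ha Finset.univ Finset.univ_nonempty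
    exact ⟨r, ⟨fun i => h1 i (Finset.mem_univ _), h2,
      fun i j => h3 i (Finset.mem_univ _) j (Finset.mem_univ _)⟩, by simp⟩
  | insert M F hMF ih =>
    obtain ⟨r, hr, hrF⟩ := ih (fun M' hM' => hF M' (Finset.mem_insert_of_mem hM'))
    have hM : Pl A M := hF M (Finset.mem_insert_self _ _)
    obtain ⟨i, hi⟩ : ∃ i, r i ∉ M := by
      by_contra hcon
      push Not at hcon
      exact hM.one (by rw [← hr.sum]; exact hM.sum_mem _ _ fun i _ => hcon i)
    obtain ⟨κ, hκ, _, hκ1⟩ := hM.inv _ (hr.mem i) hi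
    obtain ⟨ε, hε, hε1, hε2⟩ := eps F (fun M' hM' => hF M' (Finset.mem_insert_of_mem hM')) hM hMF
    set ρ := r i * κ * ε with hρ
    have hρA : ρ ∈ A := A.mul_mem (A.mul_mem (hr.mem i) hκ) hε
    have hρM : 1 - ρ ∈ M := by
      have : 1 - ρ = (1 - r i * κ) + (r i * κ) * (1 - ε) := by rw [hρ]; noncomm_ring
      rw [this]
      exact hM.add _ hκ1 _ (hM.lmul _ (A.mul_mem (hr.mem i) hκ) _ hε1)
    -- the new weights
    refine ⟨fun j => r j * (1 - ρ) + (if j = i then ρ else 0), ⟨?_, ?_, ?_⟩, ?_⟩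
    · intro j
      refine A.add_mem (A.mul_mem (hr.mem j) (A.sub_mem A.one_mem hρA)) ?_
      split_ifs
      · exact hρA
      · exact A.zero_mem
    · rw [Finset.sum_add_distrib, ← Finset.sum_mul, hr.sum]
      simp
    · intro j l
      by_cases hj : j = i
      · subst hj
        simp only [if_true]
        have : a l * (a j)⁻¹ * (r j * (1 - ρ) + ρ)
            = (a l * (a j)⁻¹ * r j) * ((1 - ρ) + κ * ε) := by
          rw [mul_add, mul_add, hρ]; noncomm_ring
        rw [this]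
        exact A.mul_mem (hr.adm j l) (A.add_mem (A.sub_mem A.one_mem hρA) (A.mul_mem hκ hε))
      · simp only [hj, if_false, add_zero]
        rw [← mul_assoc]
        exact A.mul_mem (hr.adm j l) (A.sub_mem A.one_mem hρA)
    · intro M' hM'
      rcases Finset.mem_insert.1 hM' with rfl | hM'
      · refine ⟨i, ?_, ?_⟩
        · simp only [if_true]
          have : 1 - (r i * (1 - ρ) + ρ) = (1 - ρ) - r i * (1 - ρ) := by noncomm_ring
          rw [this]
          exact hM.sub' hρM (hM.lmul _ (hr.mem i) _ hρM)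
        · intro j hj
          simp only [hj, if_false, add_zero]
          exact hM.lmul _ (hr.mem j) _ hρM
      · have hM'P := hF M' (Finset.mem_insert_of_mem hM')
        have hρM' : ρ ∈ M' := by
          rw [hρ]; exact hM'P.lmul _ (A.mul_mem (hr.mem i) hκ) _ (hε2 M' hM')
        obtain ⟨l, hl1, hl2⟩ := hrF M' hM'
        refine ⟨l, ?_, ?_⟩
        · have : 1 - (r l * (1 - ρ) + (if l = i then ρ else 0))
              = (1 - r l) + r l * ρ - (if l = i then ρ else 0) := by noncomm_ring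
          rw [this]
          refine hM'P.sub' (hM'P.add _ hl1 _ (hM'P.lmul _ (hr.mem l) _ hρM')) ?_
          split_ifs
          · exact hρM'
          · exact hM'P.zero
        · intro j hj
          refine hM'P.add _ (hM'P.rmul _ (A.sub_mem A.one_mem hρA) _ (hl2 j hj)) _ ?_
          split_ifs
          · exact hρM'
          · exact hM'P.zero

/-- membership in the left `A`-module generated by the `a i` -/
def MI (A : Subring K) [Fintype ι] (a : ι → K) (z : K) : Prop :=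
  ∃ x : ι → K, (∀ j, x j ∈ A) ∧ z = ∑ j, x j * a j
/-- membership in its localization at `M` -/
def MIV (A : Subring K) (M : Set K) [Fintype ι] (a : ι → K) (z : K) : Prop :=
  ∃ x : ι → K, (∀ j, x j ∈ V A M) ∧ z = ∑ j, x j * a j

section MI
variable [Fintype ι] {a : ι → K}

theorem MI.add {z w : K} (hz : MI A a z) (hw : MI A a w) : MI A a (z + w) := by
  obtain ⟨x, hx, rfl⟩ := hz
  obtain ⟨y, hy, rfl⟩ := hw
  exact ⟨fun j => x j + y j, fun j => A.add_mem (hx j) (hy j), by
    simp [add_mul, Finset.sum_add_distrib]⟩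

theorem MI.smul {z b : K} (hb : b ∈ A) (hz : MI A a z) : MI A a (b * z) := by
  obtain ⟨x, hx, rfl⟩ := hz
  exact ⟨fun j => b * x j, fun j => A.mul_mem hb (hx j), by
    simp [mul_assoc, Finset.mul_sum]⟩

theorem MI.zero : MI A a 0 := ⟨fun _ => 0, fun _ => A.zero_mem, by simp⟩

theorem MI.sum {κ : Type*} (s : Finset κ) (f : κ → K) (h : ∀ i ∈ s, MI A a (f i)) :
    MI A a (∑ i ∈ s, f i) := by
  classical
  induction s using Finset.induction_on with
  | empty => simpa using MI.zero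
  | insert j s hj ih =>
    rw [Finset.sum_insert hj]
    exact MI.add (h j (Finset.mem_insert_self _ _))
      (ih fun i hi => h i (Finset.mem_insert_of_mem hi))

theorem MI.gen (i : ι) : MI A a (a i) := by
  classical
  exact ⟨fun j => if j = i then 1 else 0,
    fun j => by dsimp only; split_ifs; exacts [A.one_mem, A.zero_mem], by simp⟩

theorem MIV.add (h : Pl A M) (hL : LP A) {z w : K} (hz : MIV A M a z) (hw : MIV A M a w) :
    MIV A M a (z + w) := by
  obtain ⟨x, hx, rfl⟩ := hz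
  obtain ⟨y, hy, rfl⟩ := hw
  exact ⟨fun j => x j + y j, fun j => V_add h hL (hx j) (hy j), by
    simp [add_mul, Finset.sum_add_distrib]⟩

theorem MIV.smul (h : Pl A M) (hL : LP A) {z b : K} (hb : b ∈ V A M) (hz : MIV A M a z) :
    MIV A M a (b * z) := by
  obtain ⟨x, hx, rfl⟩ := hz
  exact ⟨fun j => b * x j, fun j => V_mul h hL hb (hx j), by
    simp [mul_assoc, Finset.mul_sum]⟩

theorem MIV.zero (h : Pl A M) : MIV A M a 0 := ⟨fun _ => 0, fun _ => A_V h A.zero_mem, by simp⟩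

theorem MIV.sum (h : Pl A M) (hL : LP A) {κ : Type*} (s : Finset κ) (f : κ → K)
    (hf : ∀ i ∈ s, MIV A M a (f i)) : MIV A M a (∑ i ∈ s, f i) := by
  classical
  induction s using Finset.induction_on with
  | empty => simpa using MIV.zero h
  | insert j s hj ih =>
    rw [Finset.sum_insert hj]
    exact MIV.add h hL (hf j (Finset.mem_insert_self _ _))
      (ih fun i hi => hf i (Finset.mem_insert_of_mem hi))

theorem MI.toV (h : Pl A M) {z : K} (hz : MI A a z) : MIV A M a z := by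
  obtain ⟨x, hx, rfl⟩ := hz
  exact ⟨x, fun j => A_V h (hx j), rfl⟩

theorem MIV.gen (h : Pl A M) (i : ι) : MIV A M a (a i) := (MI.gen i).toV h

theorem MIV.exists_den (h : Pl A M) (hL : LP A) {z : K} (hz : MIV A M a z) :
    ∃ d ∈ A, d ∉ M ∧ MI A a (d * z) := by
  obtain ⟨x, hx, rfl⟩ := hz
  obtain ⟨d, hd, hdM, hdx⟩ := V_common h hL Finset.univ x fun i _ => hx i
  exact ⟨d, hd, hdM, fun j => d * x j, fun j => hdx j (Finset.mem_univ _), by
    simp [mul_assoc, Finset.mul_sum]⟩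

theorem MIV.of_den (h : Pl A M) {z d : K} (hd : d ∈ A) (hdM : d ∉ M)
    (hz : MI A a (d * z)) : MIV A M a z := by
  obtain ⟨x, hx, e⟩ := hz
  have hd0 : d ≠ 0 := h.ne_zero hdM
  refine ⟨fun j => d⁻¹ * x j, fun j => ⟨d, hd, hdM, ?_⟩, ?_⟩
  · rw [mul_inv_cancel_left₀ hd0]; exact hx j
  · simp only [mul_assoc]
    rw [← Finset.mul_sum, ← e, inv_mul_cancel_left₀ hd0]

theorem MI.of_local (hL : LP A) {z : K} (hz : ∀ M, Pl A M → MIV A M a z) : MI A a z := by
  have := lg hL {x | MI A a (x * z)} (by simpa using MI.zero)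
    (fun x hx y hy => by
      simp only [Set.mem_ofPred_eq] at *
      rw [add_mul]; exact hx.add hy)
    (fun b hb x hx => by
      simp only [Set.mem_ofPred_eq] at *
      rw [mul_assoc]; exact hx.smul hb)
    (fun M hM => by
      obtain ⟨d, hd, hdM, h⟩ := (hz M hM).exists_den hM hL
      exact ⟨d, hd, hdM, h⟩)
  simpa using this

/-- multiplication of `I` by an element of its dual lands in `A` -/
theorem MI.dual {z y : K} (hz : MI A a z) (hy : ∀ i, a i * y ∈ A) : z * y ∈ A := by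
  obtain ⟨x, hx, rfl⟩ := hz
  rw [Finset.sum_mul]
  refine A.sum_mem fun j _ => ?_
  rw [mul_assoc]; exact A.mul_mem (hx j) (hy j)

theorem MIV.dual (h : Pl A M) (hL : LP A) {z y : K} (hz : MIV A M a z)
    (hy : ∀ i, a i * y ∈ V A M) : z * y ∈ V A M := by
  obtain ⟨x, hx, rfl⟩ := hz
  rw [Finset.sum_mul]
  refine V_sum h hL _ _ fun j _ => ?_
  rw [mul_assoc]; exact V_mul h hL (hx j) (hy j)

end MI

/-- the projectivity certificate -/
def Prj (A : Subring K) [Fintype ι] (a : ι → K) : Prop :=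
  ∃ y : ι → K, (∀ i j, a i * y j ∈ A) ∧ ∑ j, y j * a j = 1

/-- `M` is bad if `1 ∈ [A,A] + M`. -/
def Bad (A : Subring K) (M : Set K) : Prop :=
  ∃ c ∈ AddSubgroup.closure {x : K | ∃ a ∈ A, ∃ b ∈ A, x = a * b - b * a}, 1 - c ∈ M

section theta
variable [Fintype ι] {a r : ι → K}

/-- `θ` is good at `M` -/
def Good (A : Subring K) (a : ι → K) (θ : K) (M : Set K) : Prop :=
  ∀ i, MIV A M a (a i * θ⁻¹)

theorem pivot_V (h : Pl A M) (hL : LP A) (hr : Adm A a r) (i₀ : ι) (hi : r i₀ ∉ M) (j : ι) :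
    a j * (a i₀)⁻¹ ∈ V A M :=
  V_of_right h hL (hr.mem i₀) hi (hr.adm i₀ j)

theorem good_of_theta (h : Pl A M) (hL : LP A) (ha : ∀ i, a i ≠ 0) (hr : Adm A a r) (i₀ : ι)
    (hi : r i₀ ∉ M)
    (hθ : ∑ j, (a i₀ * (a j)⁻¹ * r j) * (a j * (a i₀)⁻¹) ∉ J A M) :
    (∑ j, (a j)⁻¹ * r j * a j) ≠ 0 ∧ Good A a (∑ j, (a j)⁻¹ * r j * a j) M := by
  set θ := ∑ j, (a j)⁻¹ * r j * a j with hθdef
  have e : ∑ j, (a i₀ * (a j)⁻¹ * r j) * (a j * (a i₀)⁻¹) = a i₀ * θ * (a i₀)⁻¹ := by
    rw [hθdef, Finset.mul_sum, Finset.sum_mul]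
    refine Finset.sum_congr rfl fun j _ => ?_
    simp only [mul_assoc]
  rw [e] at hθ
  have hθ0 : θ ≠ 0 := by
    intro h0
    apply hθ
    rw [h0]; simpa using M_J h h.zero
  refine ⟨hθ0, fun i => ?_⟩
  have hV : a i₀ * θ * (a i₀)⁻¹ ∈ V A M := by
    rw [← e]
    refine V_sum h hL _ _ fun j _ => ?_
    exact V_mul h hL (A_V h (hr.adm j i₀)) (pivot_V h hL hr i₀ hi j)
  have h1 := inv_of_not_J h hV hθ
  have e2 : a i * θ⁻¹ = (a i * (a i₀)⁻¹ * (a i₀ * θ * (a i₀)⁻¹)⁻¹) * a i₀ := by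
    simp only [mul_inv_rev, inv_inv, mul_assoc]
    rw [inv_mul_cancel₀ (ha i₀), inv_mul_cancel_left₀ (ha i₀), mul_one]
  rw [e2]
  exact (MIV.gen h i₀).smul h hL (V_mul h hL (pivot_V h hL hr i₀ hi i) h1)

theorem good_of_not_bad (h : Pl A M) (hL : LP A) (ha : ∀ i, a i ≠ 0) (hr : Adm A a r)
    (hM : ¬ Bad A M) :
    (∑ j, (a j)⁻¹ * r j * a j) ≠ 0 ∧ Good A a (∑ j, (a j)⁻¹ * r j * a j) M := by
  obtain ⟨i₀, hi⟩ : ∃ i, r i ∉ M := by
    by_contra hcon
    push Not at hcon
    exact h.one (by rw [← hr.sum]; exact h.sum_mem _ _ fun i _ => hcon i)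
  refine good_of_theta h hL ha hr i₀ hi fun hθ => hM ?_
  have hγ := fun j => pivot_V h hL hr i₀ hi j
  choose c hc hcJ using fun j => V_repr h hL (hγ j)
  set β : ι → K := fun j => a i₀ * (a j)⁻¹ * r j with hβ
  have hβA : ∀ j, β j ∈ A := fun j => hr.adm j i₀
  have hγβ : ∀ j, (a j * (a i₀)⁻¹) * β j = r j := by
    intro j
    simp only [hβ, mul_assoc]
    rw [inv_mul_cancel_left₀ (ha i₀), mul_inv_cancel_left₀ (ha j)]
  have h1 : ∑ j, β j * c j ∈ M := by
    apply J_A h _ (A.sum_mem fun j _ => A.mul_mem (hβA j) (hc j))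
    have : ∑ j, β j * c j
        = ∑ j, β j * (a j * (a i₀)⁻¹) - ∑ j, β j * (a j * (a i₀)⁻¹ - c j) := by
      rw [← Finset.sum_sub_distrib]
      refine Finset.sum_congr rfl fun j _ => ?_
      noncomm_ring
    rw [this]
    exact J_sub h hL hθ (J_sum h hL _ _ fun j _ => VJ h hL (A_V h (hβA j)) (hcJ j))
  have h2 : 1 - ∑ j, c j * β j ∈ M := by
    apply J_A h _ (A.sub_mem A.one_mem (A.sum_mem fun j _ => A.mul_mem (hc j) (hβA j)))
    have : 1 - ∑ j, c j * β j = ∑ j, (a j * (a i₀)⁻¹ - c j) * β j := by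
      rw [← hr.sum, ← Finset.sum_sub_distrib]
      refine Finset.sum_congr rfl fun j _ => ?_
      rw [sub_mul, hγβ]
    rw [this]
    exact J_sum h hL _ _ fun j _ => JV h hL (hcJ j) (A_V h (hβA j))
  refine ⟨∑ j, (c j * β j - β j * c j), ?_, ?_⟩
  · refine AddSubgroup.sum_mem _ fun j _ => AddSubgroup.subset_closure ?_
    exact ⟨c j, hc j, β j, hβA j, rfl⟩
  · have : 1 - ∑ j, (c j * β j - β j * c j) = (1 - ∑ j, c j * β j) + ∑ j, β j * c j := by
      rw [Finset.sum_sub_distrib]; abel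
    rw [this]
    exact h.add _ h2 _ h1

theorem good_of_delta (h : Pl A M) (hL : LP A) (ha : ∀ i, a i ≠ 0) (hr : Adm A a r)
    (hM : ∃ i, 1 - r i ∈ M ∧ ∀ j, j ≠ i → r j ∈ M) :
    (∑ j, (a j)⁻¹ * r j * a j) ≠ 0 ∧ Good A a (∑ j, (a j)⁻¹ * r j * a j) M := by
  classical
  obtain ⟨i₀, h1, h2⟩ := hM
  have hi : r i₀ ∉ M := fun h3 => h.one_sub h3 h1
  refine good_of_theta h hL ha hr i₀ hi fun hθ => ?_
  apply hi
  apply J_A h _ (hr.mem i₀)
  rw [← Finset.add_sum_erase _ _ (Finset.mem_univ i₀)] at hθ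
  have e : a i₀ * (a i₀)⁻¹ * r i₀ * (a i₀ * (a i₀)⁻¹) = r i₀ := by
    rw [mul_inv_cancel₀ (ha i₀), one_mul, mul_one]
  rw [e] at hθ
  have h3 : ∑ j ∈ Finset.univ.erase i₀, a i₀ * (a j)⁻¹ * r j * (a j * (a i₀)⁻¹) ∈ J A M := by
    refine J_sum h hL _ _ fun j hj => ?_
    have hji : j ≠ i₀ := Finset.ne_of_mem_erase hj
    have hγβ : (a j * (a i₀)⁻¹) * (a i₀ * (a j)⁻¹ * r j) = r j := by
      simp only [mul_assoc]
      rw [inv_mul_cancel_left₀ (ha i₀), mul_inv_cancel_left₀ (ha j)]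
    have h4 : (a j * (a i₀)⁻¹) * (a i₀ * (a j)⁻¹ * r j) ∈ J A M := by
      rw [hγβ]; exact M_J h (h2 j hji)
    rcases J_prime h hL (pivot_V h hL hr i₀ hi j) h4 with h5 | h5
    · exact VJ h hL (A_V h (hr.adm j i₀)) h5
    · exact JV h hL h5 (pivot_V h hL hr i₀ hi j)
  have := J_sub h hL hθ h3
  rwa [add_sub_cancel_right] at this

/-- if `θ` is good everywhere then the ideal is projective -/
theorem prj_of_good (hL : LP A) (hr : Adm A a r)
    (hθ0 : (∑ j, (a j)⁻¹ * r j * a j) ≠ 0)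
    (hg : ∀ M, Pl A M → Good A a (∑ j, (a j)⁻¹ * r j * a j) M) : Prj A a := by
  set θ := ∑ j, (a j)⁻¹ * r j * a j with hθdef
  refine ⟨fun j => θ⁻¹ * ((a j)⁻¹ * r j), ?_, ?_⟩
  · intro i j
    have h1 : MI A a (a i * θ⁻¹) := MI.of_local hL fun M hM => hg M hM i
    rw [← mul_assoc]
    refine h1.dual fun k => ?_
    rw [← mul_assoc]; exact hr.adm j k
  · have : ∑ j, θ⁻¹ * ((a j)⁻¹ * r j) * a j = θ⁻¹ * θ := by
      rw [hθdef, Finset.mul_sum]
      refine Finset.sum_congr rfl fun j _ => ?_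
      simp only [mul_assoc]
    rw [this, inv_mul_cancel₀ hθ0]

end theta

/-- Theorem A: finitely many bad maximal ideals. -/
theorem prj_of_finite_bad [Fintype ι] (hL : LP A) (hR : RP A) (hex : ∃ M, Pl A M)
    (hfin : {M : Set K | Pl A M ∧ Bad A M}.Finite) (a : ι → K) (ha : ∀ i, a i ≠ 0)
    [Nonempty ι] : Prj A a := by
  obtain ⟨r, hr, hrF⟩ := exists_adm hR a ha hfin.toFinset (fun M hM => by
    rw [Set.Finite.mem_toFinset] at hM; exact hM.1)
  have key : ∀ M, Pl A M → (∑ j, (a j)⁻¹ * r j * a j) ≠ 0 ∧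
      Good A a (∑ j, (a j)⁻¹ * r j * a j) M := by
    intro M hM
    by_cases hb : Bad A M
    · exact good_of_delta hM hL ha hr (hrF M (by
        rw [Set.Finite.mem_toFinset]; exact ⟨hM, hb⟩))
    · exact good_of_not_bad hM hL ha hr hb
  obtain ⟨M, hM⟩ := hex
  exact prj_of_good hL hr (key M hM).1 fun M hM => (key M hM).2

end Pool.Agent.H282Dist
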