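import Pool.Agent.Helper282.DistA

set_option autoImplicit false

namespace Pool.Agent.H282Dist

universe u

/-- element form of left distributivity -/
theorem elemL (R : Type u) [Ring R]
    (h : ∀ a b c : Submodule R R, a ⊓ (b ⊔ c) = (a ⊓ b) ⊔ (a ⊓ c)) (a b : R) :
    ∃ s t u v : R, s + t = 1 ∧ s * a = u * b ∧ t * b = v * a := by
  have h1 : a ∈ Submodule.span R {a} ⊓ (Submodule.span R {b} ⊔ Submodule.span R {a - b}) := by
    refine ⟨Submodule.mem_span_singleton_self a, ?_⟩
    have e : a = b + (a - b) := by abel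
    rw [e]
    exact Submodule.add_mem_sup (Submodule.mem_span_singleton_self b)
      (by rw [← e]; exact Submodule.mem_span_singleton_self _)
  rw [h] at h1
  obtain ⟨x, hx, y, hy, hxy⟩ := Submodule.mem_sup.1 h1
  obtain ⟨hxa, hxb⟩ := hx
  obtain ⟨hya, hyb⟩ := hy
  obtain ⟨x1, hx1⟩ := Submodule.mem_span_singleton.1 hxa
  obtain ⟨x2, hx2⟩ := Submodule.mem_span_singleton.1 hxb
  obtain ⟨y1, hy1⟩ := Submodule.mem_span_singleton.1 hya
  obtain ⟨w, hw⟩ := Submodule.mem_span_singleton.1 hyb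
  simp only [smul_eq_mul] at hx1 hx2 hy1 hw
  -- `s = 1 - w`, `t = w`
  refine ⟨1 - w, w, x2 - w, w - y1, by abel, ?_, ?_⟩
  · have h2 : w * a - w * b = y := by rw [← hw, mul_sub]
    have h3 : w * a = y + w * b := by rw [← h2]; abel
    have h4 : (1 - w) * a = x - w * b := by
      rw [sub_mul, one_mul, h3]; nth_rewrite 1 [← hxy]; abel
    rw [h4, ← hx2, sub_mul]
  · have h2 : w * a - w * b = y := by rw [← hw, mul_sub]
    rw [sub_mul, hy1, ← h2]; abel

/-- element form of right distributivity -/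
theorem elemR (R : Type u) [Ring R]
    (h : ∀ a b c : Submodule Rᵐᵒᵖ R, a ⊓ (b ⊔ c) = (a ⊓ b) ⊔ (a ⊓ c)) (a b : R) :
    ∃ s t u v : R, s + t = 1 ∧ a * s = b * u ∧ b * t = a * v := by
  have h1 : a ∈ Submodule.span Rᵐᵒᵖ {a} ⊓
      (Submodule.span Rᵐᵒᵖ {b} ⊔ Submodule.span Rᵐᵒᵖ {a - b}) := by
    refine ⟨Submodule.mem_span_singleton_self a, ?_⟩
    have e : a = b + (a - b) := by abel
    rw [e]
    exact Submodule.add_mem_sup (Submodule.mem_span_singleton_self b)
      (by rw [← e]; exact Submodule.mem_span_singleton_self _)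
  rw [h] at h1
  obtain ⟨x, hx, y, hy, hxy⟩ := Submodule.mem_sup.1 h1
  obtain ⟨hxa, hxb⟩ := hx
  obtain ⟨hya, hyb⟩ := hy
  obtain ⟨x1, hx1⟩ := Submodule.mem_span_singleton.1 hxa
  obtain ⟨x2, hx2⟩ := Submodule.mem_span_singleton.1 hxb
  obtain ⟨y1, hy1⟩ := Submodule.mem_span_singleton.1 hya
  obtain ⟨w, hw⟩ := Submodule.mem_span_singleton.1 hyb
  rw [MulOpposite.smul_eq_mul_unop] at hx1 hx2 hy1 hw
  refine ⟨1 - w.unop, w.unop, x2.unop - w.unop, w.unop - y1.unop, by abel, ?_, ?_⟩
  · have h2 : a * w.unop - b * w.unop = y := by rw [← hw, sub_mul]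
    have h3 : a * w.unop = y + b * w.unop := by rw [← h2]; abel
    have h4 : a * (1 - w.unop) = x - b * w.unop := by
      rw [mul_sub, mul_one, h3]; nth_rewrite 1 [← hxy]; abel
    rw [h4, ← hx2, mul_sub]
  · have h2 : a * w.unop - b * w.unop = y := by rw [← hw, sub_mul]
    rw [mul_sub, hy1, ← h2]; abel

/-- the division ring of fractions -/
theorem exists_frac (R : Type u) [Ring R] [IsDomain R]
    (h : ∀ a b : R, ∃ s t u v : R, s + t = 1 ∧ s * a = u * b ∧ t * b = v * a) :
    ∃ (K : Type u) (_ : DivisionRing K) (φ : R →+* K), Function.Injective φ ∧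
      ∀ x : K, ∃ s a : R, s ≠ 0 ∧ x = (φ s)⁻¹ * φ a := by
  have hO : Nonempty (OreLocalization.OreSet (nonZeroDivisors R)) := by
    rw [OreLocalization.nonempty_oreSet_iff_of_noZeroDivisors]
    intro r s
    have hs : (s : R) ≠ 0 := nonZeroDivisors.ne_zero s.2
    obtain ⟨x, t, u, v, h1, h2, h3⟩ := h r s
    by_cases hx : x = 0
    · have ht : t = 1 := by rw [← h1, hx, zero_add]
      rw [ht, one_mul] at h3
      have hv : v ≠ 0 := by
        rintro rfl; rw [zero_mul] at h3; exact hs h3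
      exact ⟨1, ⟨v, mem_nonZeroDivisors_of_ne_zero hv⟩, by simpa using h3.symm⟩
    · exact ⟨u, ⟨x, mem_nonZeroDivisors_of_ne_zero hx⟩, h2⟩
  obtain ⟨hO⟩ := hO
  letI := hO
  refine ⟨OreLocalization (nonZeroDivisors R) R, inferInstance,
    OreLocalization.numeratorRingHom, ?_, ?_⟩
  · exact OreLocalization.numeratorHom_inj (by
      intro x hx
      exact ((mem_nonZeroDivisors_iff (M₀ := R)).1 hx).1)
  · intro x
    induction x using OreLocalization.ind with
    | _ a s =>
    refine ⟨s, a, nonZeroDivisors.ne_zero s.2, ?_⟩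
    have hs : (OreLocalization.numeratorRingHom (s : R) :
        OreLocalization (nonZeroDivisors R) R) ≠ 0 := by
      intro h0
      have := OreLocalization.numeratorHom_inj (S := nonZeroDivisors R) (R := R) (by
        intro x hx
        exact ((mem_nonZeroDivisors_iff (M₀ := R)).1 hx).1) (h0.trans
          (map_zero OreLocalization.numeratorRingHom).symm)
      exact nonZeroDivisors.ne_zero s.2 this
    rw [eq_inv_mul_iff_mul_eq₀ hs]
    change ((s : R) /ₒ (1 : nonZeroDivisors R)) * (a /ₒ s) = a /ₒ 1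
    rw [OreLocalization.mul_cancel]

section frac
variable {R : Type u} [Ring R] [IsDomain R] {K : Type u} [DivisionRing K] (φ : R →+* K)

theorem frac_RP (hφ : Function.Injective φ)
    (hfrac : ∀ x : K, ∃ s a : R, s ≠ 0 ∧ x = (φ s)⁻¹ * φ a)
    (hR : ∀ a b : R, ∃ s t u v : R, s + t = 1 ∧ a * s = b * u ∧ b * t = a * v) :
    RP φ.range := by
  intro x hx
  obtain ⟨s, a, hs, rfl⟩ := hfrac x
  have hs' : φ s ≠ 0 := fun h => hs (hφ (by rw [h, map_zero]))
  have ha' : φ a ≠ 0 := fun h => hx (by rw [h, mul_zero])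
  obtain ⟨ρ, t, u, v, h1, h2, h3⟩ := hR a s
  refine ⟨φ ρ, ⟨ρ, rfl⟩, ⟨u, ?_⟩, ⟨v, ?_⟩⟩
  · rw [mul_assoc, ← map_mul, h2, map_mul, inv_mul_cancel_left₀ hs']
  · have ht : 1 - φ ρ = φ t := by rw [← map_one φ, ← h1, map_add]; abel
    rw [ht, mul_inv_rev, inv_inv, mul_assoc, ← map_mul, h3, map_mul, inv_mul_cancel_left₀ ha']

theorem frac_right (hφ : Function.Injective φ)
    (hfrac : ∀ x : K, ∃ s a : R, s ≠ 0 ∧ x = (φ s)⁻¹ * φ a)
    (hR : ∀ a b : R, ∃ s t u v : R, s + t = 1 ∧ a * s = b * u ∧ b * t = a * v)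
    (x : K) (hx : x ≠ 0) : ∃ c d : R, c ≠ 0 ∧ d ≠ 0 ∧ x = φ c * (φ d)⁻¹ := by
  obtain ⟨r, ⟨ρ, rfl⟩, ⟨u, hu⟩, ⟨v, hv⟩⟩ := frac_RP φ hφ hfrac hR x hx
  by_cases hρ : φ ρ = 0
  · rw [hρ, sub_zero, mul_one] at hv
    have hv0 : φ v ≠ 0 := by rw [hv]; exact inv_ne_zero hx
    refine ⟨1, v, one_ne_zero, fun h => hv0 (by rw [h, map_zero]), ?_⟩
    rw [map_one, one_mul, hv, inv_inv]
  · have hu0 : φ u ≠ 0 := by rw [hu]; exact mul_ne_zero hx hρ
    refine ⟨u, ρ, fun h => hu0 (by rw [h, map_zero]), fun h => hρ (by rw [h, map_zero]), ?_⟩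
    rw [hu, mul_inv_cancel_right₀ hρ]

theorem frac_LP (hφ : Function.Injective φ)
    (hfrac : ∀ x : K, ∃ s a : R, s ≠ 0 ∧ x = (φ s)⁻¹ * φ a)
    (hR : ∀ a b : R, ∃ s t u v : R, s + t = 1 ∧ a * s = b * u ∧ b * t = a * v)
    (hL : ∀ a b : R, ∃ s t u v : R, s + t = 1 ∧ s * a = u * b ∧ t * b = v * a) :
    LP φ.range := by
  intro x hx
  obtain ⟨c, d, hc, hd, rfl⟩ := frac_right φ hφ hfrac hR x hx
  have hc' : φ c ≠ 0 := fun h => hc (hφ (by rw [h, map_zero]))
  have hd' : φ d ≠ 0 := fun h => hd (hφ (by rw [h, map_zero]))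
  obtain ⟨s, t, u, v, h1, h2, h3⟩ := hL c d
  refine ⟨φ s, ⟨s, rfl⟩, ⟨u, ?_⟩, ⟨v, ?_⟩⟩
  · rw [← mul_assoc, ← map_mul, h2, map_mul, mul_inv_cancel_right₀ hd']
  · have ht : 1 - φ s = φ t := by rw [← map_one φ, ← h1, map_add]; abel
    rw [ht, mul_inv_rev, inv_inv, ← mul_assoc, ← map_mul, h3, map_mul,
      mul_inv_cancel_right₀ hc']

/-- left ideals: from certificates to projectivity -/
theorem proj_left (hφ : Function.Injective φ)
    (h : ∀ (ι : Type u) [Fintype ι] [Nonempty ι] (a : ι → K), (∀ i, a i ≠ 0) → Prj φ.range a)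
    (I : Submodule R R) (hI : I.FG) : Module.Projective R I := by
  classical
  obtain ⟨s, hs⟩ := hI
  have hs' : Submodule.span R ((s.erase 0 : Finset R) : Set R) = I := by
    rw [← hs]
    apply le_antisymm
    · exact Submodule.span_mono (by intro x hx; exact Finset.mem_of_mem_erase hx)
    · rw [Submodule.span_le]
      intro x hx
      by_cases hx0 : x = 0
      · rw [hx0]; exact Submodule.zero_mem _
      · exact Submodule.subset_span (Finset.mem_erase.2 ⟨hx0, hx⟩)
  rcases (s.erase 0).eq_empty_or_nonempty with he | hne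
  · have : I = ⊥ := by rw [← hs', he]; simp
    subst this
    infer_instance
  let ι := {x // x ∈ s.erase 0}
  haveI : Nonempty ι := ⟨⟨hne.choose, hne.choose_spec⟩⟩
  let a : ι → R := fun i => i.1
  have ha : ∀ i, φ (a i) ≠ 0 := fun i h0 =>
    (Finset.mem_erase.1 i.2).1 (hφ (by rw [map_zero]; exact h0))
  have haI : ∀ i, a i ∈ I := fun i => by rw [← hs']; exact Submodule.subset_span i.2
  obtain ⟨y, hy, hy1⟩ := h ι (fun i => φ (a i)) ha
  have hex : ∀ n : I, ∀ j : ι, ∃ r : R, φ r = φ n * y j := by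
    intro n j
    have : ∀ x ∈ Submodule.span R ((s.erase 0 : Finset R) : Set R), φ x * y j ∈ φ.range := by
      intro x hx
      induction hx using Submodule.span_induction with
      | mem x hx => exact hy ⟨x, hx⟩ j
      | zero => rw [map_zero, zero_mul]; exact Subring.zero_mem _
      | add x z _ _ h1 h2 => rw [map_add, add_mul]; exact Subring.add_mem _ h1 h2
      | smul c x _ h1 =>
        rw [smul_eq_mul, map_mul, mul_assoc]; exact Subring.mul_mem _ ⟨c, rfl⟩ h1
    obtain ⟨r, hr⟩ := this n (by rw [hs']; exact n.2)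
    exact ⟨r, hr⟩
  choose f hf using hex
  let F : I →ₗ[R] (ι → R) :=
    { toFun := f
      map_add' := by
        intro n m; funext j
        apply hφ
        simp only [Pi.add_apply, map_add, hf, Submodule.coe_add, add_mul]
      map_smul' := by
        intro c n; funext j
        apply hφ
        simp only [Pi.smul_apply, smul_eq_mul, RingHom.id_apply, map_mul, hf,
          Submodule.coe_smul, mul_assoc] }
  let G : (ι → R) →ₗ[R] I :=
    { toFun := fun x => ⟨∑ j, x j * a j, Submodule.sum_mem _ fun j _ =>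
        Submodule.smul_mem _ (x j) (haI j)⟩
      map_add' := by
        intro x z
        apply Subtype.ext
        simp [add_mul, Finset.sum_add_distrib]
      map_smul' := by
        intro c x
        apply Subtype.ext
        simp [Finset.mul_sum, mul_assoc] }
  refine Module.Projective.of_split F G ?_
  ext n
  apply hφ
  change φ (∑ j, f n j * a j) = φ n
  rw [map_sum]
  have : ∀ j ∈ Finset.univ, φ (f n j * a j) = φ n * (y j * φ (a j)) := by
    intro j _
    rw [map_mul, hf, mul_assoc]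
  rw [Finset.sum_congr rfl this, ← Finset.mul_sum, hy1, mul_one]

/-- right ideals -/
theorem proj_right (hφ : Function.Injective φ)
    (h : ∀ (ι : Type u) [Fintype ι] [Nonempty ι] (a : ι → Kᵐᵒᵖ), (∀ i, a i ≠ 0) →
      Prj φ.range.op a)
    (I : Submodule Rᵐᵒᵖ R) (hI : I.FG) : Module.Projective Rᵐᵒᵖ I := by
  classical
  obtain ⟨s, hs⟩ := hI
  have hs' : Submodule.span Rᵐᵒᵖ ((s.erase 0 : Finset R) : Set R) = I := by
    rw [← hs]
    apply le_antisymm
    · exact Submodule.span_mono (by intro x hx; exact Finset.mem_of_mem_erase hx)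
    · rw [Submodule.span_le]
      intro x hx
      by_cases hx0 : x = 0
      · rw [hx0]; exact Submodule.zero_mem _
      · exact Submodule.subset_span (Finset.mem_erase.2 ⟨hx0, hx⟩)
  rcases (s.erase 0).eq_empty_or_nonempty with he | hne
  · have : I = ⊥ := by rw [← hs', he]; simp
    subst this
    infer_instance
  let ι := {x // x ∈ s.erase 0}
  haveI : Nonempty ι := ⟨⟨hne.choose, hne.choose_spec⟩⟩
  let a : ι → R := fun i => i.1
  have ha : ∀ i, MulOpposite.op (φ (a i)) ≠ 0 := fun i h0 =>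
    (Finset.mem_erase.1 i.2).1 (hφ (by
      rw [map_zero]; exact (MulOpposite.op_eq_zero_iff _).1 h0))
  have haI : ∀ i, a i ∈ I := fun i => by rw [← hs']; exact Submodule.subset_span i.2
  obtain ⟨y, hy, hy1⟩ := h ι (fun i => MulOpposite.op (φ (a i))) ha
  have hy' : ∀ i j, (y j).unop * φ (a i) ∈ φ.range := by
    intro i j
    have := hy i j
    rw [Subring.mem_op, MulOpposite.unop_mul, MulOpposite.unop_op] at this
    exact this
  have hy1' : ∑ j, φ (a j) * (y j).unop = 1 := by
    have h5 := congrArg (MulOpposite.opAddEquiv (α := K)).symm hy1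
    rw [map_sum] at h5
    exact h5
  have hex : ∀ n : I, ∀ j : ι, ∃ r : R, φ r = (y j).unop * φ n := by
    intro n j
    have : ∀ x ∈ Submodule.span Rᵐᵒᵖ ((s.erase 0 : Finset R) : Set R),
        (y j).unop * φ x ∈ φ.range := by
      intro x hx
      induction hx using Submodule.span_induction with
      | mem x hx => exact hy' ⟨x, hx⟩ j
      | zero => rw [map_zero, mul_zero]; exact Subring.zero_mem _
      | add x z _ _ h1 h2 => rw [map_add, mul_add]; exact Subring.add_mem _ h1 h2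
      | smul c x _ h1 =>
        rw [MulOpposite.smul_eq_mul_unop, map_mul, ← mul_assoc]
        exact Subring.mul_mem _ h1 ⟨c.unop, rfl⟩
    obtain ⟨r, hr⟩ := this n (by rw [hs']; exact n.2)
    exact ⟨r, hr⟩
  choose f hf using hex
  let F : I →ₗ[Rᵐᵒᵖ] (ι → Rᵐᵒᵖ) :=
    { toFun := fun n j => MulOpposite.op (f n j)
      map_add' := by
        intro n m; funext j
        apply MulOpposite.unop_injective
        apply hφ
        simp only [Pi.add_apply, MulOpposite.unop_add, MulOpposite.unop_op, map_add, hf,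
          Submodule.coe_add, mul_add]
      map_smul' := by
        intro c n; funext j
        apply MulOpposite.unop_injective
        apply hφ
        simp only [Pi.smul_apply, smul_eq_mul, RingHom.id_apply, MulOpposite.unop_mul,
          MulOpposite.unop_op, map_mul, hf, Submodule.coe_smul,
          MulOpposite.smul_eq_mul_unop, mul_assoc] }
  let G : (ι → Rᵐᵒᵖ) →ₗ[Rᵐᵒᵖ] I :=
    { toFun := fun x => ⟨∑ j, x j • a j, Submodule.sum_mem _ fun j _ =>
        Submodule.smul_mem _ (x j) (haI j)⟩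
      map_add' := by
        intro x z
        apply Subtype.ext
        simp [add_smul, Finset.sum_add_distrib]
      map_smul' := by
        intro c x
        apply Subtype.ext
        simp [Finset.smul_sum, mul_smul] }
  refine Module.Projective.of_split F G ?_
  ext n
  apply hφ
  change φ (∑ j, MulOpposite.op (f n j) • a j) = φ n
  rw [map_sum]
  have : ∀ j ∈ Finset.univ, φ (MulOpposite.op (f n j) • a j)
      = (φ (a j) * (y j).unop) * φ n := by
    intro j _
    rw [MulOpposite.smul_eq_mul_unop, MulOpposite.unop_op, map_mul, hf, mul_assoc]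
  rw [Finset.sum_congr rfl this, ← Finset.sum_mul, hy1', one_mul]

end frac

section op
variable {K : Type*} [DivisionRing K] {A : Subring K}

theorem LP_op (h : RP A) : LP A.op := by
  intro x hx
  obtain ⟨r, hr, h1, h2⟩ := h x.unop (fun h0 => hx ((MulOpposite.unop_eq_zero_iff _).1 h0))
  exact ⟨MulOpposite.op r, hr, h1, h2⟩

theorem RP_op (h : LP A) : RP A.op := by
  intro x hx
  obtain ⟨r, hr, h1, h2⟩ := h x.unop (fun h0 => hx ((MulOpposite.unop_eq_zero_iff _).1 h0))
  exact ⟨MulOpposite.op r, hr, h1, h2⟩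

theorem Pl_unop {M : Set Kᵐᵒᵖ} (h : Pl A.op M) : Pl A (MulOpposite.op ⁻¹' M) where
  sub x hx := h.sub _ hx
  zero := h.zero
  add x hx y hy := h.add _ hx _ hy
  lmul a ha x hx := h.rmul (MulOpposite.op a) ha _ hx
  rmul a ha x hx := h.lmul (MulOpposite.op a) ha _ hx
  one := h.one
  inv a ha haM := by
    obtain ⟨b, hb, h1, h2⟩ := h.inv (MulOpposite.op a) ha haM
    exact ⟨b.unop, hb, h2, h1⟩

theorem Bad_unop {M : Set Kᵐᵒᵖ} (h : Bad A.op M) : Bad A (MulOpposite.op ⁻¹' M) := by
  obtain ⟨c, hc, h1⟩ := h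
  refine ⟨c.unop, ?_, h1⟩
  clear h1
  induction hc using AddSubgroup.closure_induction with
  | mem x hx =>
    obtain ⟨a, ha, b, hb, rfl⟩ := hx
    refine AddSubgroup.subset_closure ⟨b.unop, hb, a.unop, ha, rfl⟩
  | zero => exact AddSubgroup.zero_mem _
  | add x y _ _ h1 h2 => exact AddSubgroup.add_mem _ h1 h2
  | neg x _ h1 => exact AddSubgroup.neg_mem _ h1

theorem exists_pl (hL : LP A) : ∃ M, Pl A M := by
  by_contra hcon
  push Not at hcon
  have := lg hL ({0} : Set K) rfl (by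
    intro x hx y hy
    rw [Set.mem_singleton_iff] at *
    rw [hx, hy, add_zero]) (by
    intro a _ x hx
    rw [Set.mem_singleton_iff] at *
    rw [hx, mul_zero]) (fun M hM => absurd hM (hcon M))
  exact one_ne_zero this

end op

section two
variable {R : Type u} [Ring R] {K : Type u} [DivisionRing K] (φ : R →+* K)

/-- the two-sided ideal of `R` attached to a place -/
def toTwo {M : Set K} (h : Pl φ.range M) : TwoSidedIdeal R :=
  TwoSidedIdeal.mk' {r | φ r ∈ M} (by simpa using h.zero)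
    (fun {x y} hx hy => by
      simp only [Set.mem_ofPred_eq, map_add] at *
      exact h.add _ hx _ hy)
    (fun {x} hx => by
      simp only [Set.mem_ofPred_eq, map_neg] at *
      exact h.neg hx)
    (fun {x y} hy => by
      simp only [Set.mem_ofPred_eq, map_mul] at *
      exact h.lmul _ ⟨x, rfl⟩ _ hy)
    (fun {x y} hx => by
      simp only [Set.mem_ofPred_eq, map_mul] at *
      exact h.rmul _ ⟨y, rfl⟩ _ hx)

theorem mem_toTwo {M : Set K} (h : Pl φ.range M) (r : R) : r ∈ toTwo φ h ↔ φ r ∈ M := by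
  unfold toTwo
  rw [TwoSidedIdeal.mem_mk']
  rfl

theorem toTwo_coatom {M : Set K} (h : Pl φ.range M) : IsCoatom (toTwo φ h) := by
  constructor
  · intro ht
    apply h.one
    have : (1 : R) ∈ toTwo φ h := by rw [ht]; trivial
    rw [mem_toTwo, map_one] at this
    exact this
  · intro N hN
    obtain ⟨x, hxN, hx⟩ := SetLike.exists_of_lt hN
    rw [mem_toTwo] at hx
    obtain ⟨_, ⟨b, rfl⟩, h1, _⟩ := h.inv (φ x) ⟨x, rfl⟩ hx
    have h2 : 1 - b * x ∈ toTwo φ h := by
      rw [mem_toTwo, map_sub, map_mul, map_one]; exact h1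
    rw [← TwoSidedIdeal.one_mem_iff]
    have h3 := N.add_mem (hN.le h2) (N.mul_mem_left b x hxN)
    rwa [sub_add_cancel] at h3

theorem toTwo_image {M : Set K} (h : Pl φ.range M) : M = φ '' {r | r ∈ toTwo φ h} := by
  ext x
  constructor
  · intro hx
    obtain ⟨r, rfl⟩ := h.sub x hx
    exact ⟨r, (mem_toTwo φ h r).2 hx, rfl⟩
  · rintro ⟨r, hr, rfl⟩
    exact (mem_toTwo φ h r).1 hr

theorem toTwo_bad {M : Set K} (h : Pl φ.range M) (hb : Bad φ.range M) :
    ∃ c ∈ AddSubgroup.closure {x : R | ∃ a b : R, x = a * b - b * a}, 1 - c ∈ toTwo φ h := by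
  obtain ⟨c, hc, h1⟩ := hb
  have : ∃ c' ∈ AddSubgroup.closure {x : R | ∃ a b : R, x = a * b - b * a}, φ c' = c := by
    clear h1
    induction hc using AddSubgroup.closure_induction with
    | mem x hx =>
      obtain ⟨_, ⟨a, rfl⟩, _, ⟨b, rfl⟩, rfl⟩ := hx
      exact ⟨a * b - b * a, AddSubgroup.subset_closure ⟨a, b, rfl⟩, by simp⟩
    | zero => exact ⟨0, AddSubgroup.zero_mem _, map_zero _⟩
    | add x y _ _ h1 h2 =>
      obtain ⟨a, ha, rfl⟩ := h1
      obtain ⟨b, hb, rfl⟩ := h2
      exact ⟨a + b, AddSubgroup.add_mem _ ha hb, map_add _ _ _⟩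
    | neg x _ h1 =>
      obtain ⟨a, ha, rfl⟩ := h1
      exact ⟨-a, AddSubgroup.neg_mem _ ha, map_neg _ _⟩
  obtain ⟨c', hc', rfl⟩ := this
  exact ⟨c', hc', by rw [mem_toTwo, map_sub, map_one]; exact h1⟩

end two

end Pool.Agent.H282Dist
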