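import Mathlib

set_option autoImplicit false

namespace Pool.Agent.Helper282.Quat

/-- A ring with one half, together with infinitely many mutually commuting anticommuting
pairs of units whose squares are central, such that every element commutes with almost all of
these units and the elements commuting with all of them are central. -/
structure QSys (T : Type) [Ring T] where
  i : ℕ → Tˣ
  j : ℕ → Tˣ
  half : T
  hhalf : half + half = 1
  hii : ∀ m n, (i m : T) * i n = i n * i m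
  hjj : ∀ m n, (j m : T) * j n = j n * j m
  hij : ∀ m n, m ≠ n → (i m : T) * j n = j n * i m
  hanti : ∀ m, (i m : T) * j m = -(j m * i m)
  hi2 : ∀ m (x : T), (i m * i m : T) * x = x * (i m * i m)
  hj2 : ∀ m (x : T), (j m * j m : T) * x = x * (j m * j m)
  ev : ∀ x : T, ∃ N, ∀ m, N ≤ m → Commute x (i m) ∧ Commute x (j m)
  gen : ∀ x : T, (∀ m, Commute x (i m) ∧ Commute x (j m)) → ∀ y, Commute x y

namespace QSys

variable {T : Type} [Ring T] (Q : QSys T)

theorem half_comm (x : T) : Commute Q.half x := by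
  have h := Q.hhalf
  have h1 : Q.half * x = (Q.half * x) * (Q.half + Q.half) := by rw [h, mul_one]
  have h2 : x * Q.half = (Q.half + Q.half) * (x * Q.half) := by rw [h, one_mul]
  change Q.half * x = x * Q.half
  rw [h1, h2, mul_add, add_mul, mul_assoc]

theorem half_mul_add (x : T) : Q.half * (x + x) = x := by
  rw [mul_add, ← add_mul, Q.hhalf, one_mul]

/-- Elements commuting with all pairs from a given index on. -/
def C (n : ℕ) : Subalgebra (Subring.center T) T where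
  carrier := {x | ∀ m, n ≤ m → Commute x (Q.i m) ∧ Commute x (Q.j m)}
  mul_mem' := by
    intro a b ha hb m hm
    exact ⟨(ha m hm).1.mul_left (hb m hm).1, (ha m hm).2.mul_left (hb m hm).2⟩
  add_mem' := by
    intro a b ha hb m hm
    exact ⟨(ha m hm).1.add_left (hb m hm).1, (ha m hm).2.add_left (hb m hm).2⟩
  algebraMap_mem' := by
    intro r m _
    have hr := Subring.mem_center_iff.1 r.2
    exact ⟨(hr _).symm, (hr _).symm⟩

theorem mem_C {n : ℕ} {x : T} : x ∈ Q.C n ↔ ∀ m, n ≤ m → Commute x (Q.i m) ∧ Commute x (Q.j m) :=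
  Iff.rfl

theorem C_zero : (Q.C 0) = ⊥ := by
  apply le_antisymm _ bot_le
  intro x hx
  have h := Q.gen x (fun m => hx m (Nat.zero_le _))
  exact Algebra.mem_bot.2 ⟨⟨x, Subring.mem_center_iff.2 fun y => (h y).symm⟩, rfl⟩

theorem half_mem (n : ℕ) : Q.half ∈ Q.C n := fun _ _ => ⟨Q.half_comm _, Q.half_comm _⟩

theorem i_mem {n : ℕ} : (Q.i n : T) ∈ Q.C (n + 1) := by
  intro m hm
  exact ⟨Q.hii n m, Q.hij n m (by omega)⟩

theorem j_mem {n : ℕ} : (Q.j n : T) ∈ Q.C (n + 1) := by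
  intro m hm
  exact ⟨(Q.hij m n (by omega)).symm, Q.hjj n m⟩

theorem iinv_mem {n : ℕ} : ((Q.i n)⁻¹ : Tˣ).val ∈ Q.C (n + 1) := by
  intro m hm
  have := Q.i_mem (n := n) m hm
  exact ⟨this.1.units_inv_left, this.2.units_inv_left⟩

theorem jinv_mem {n : ℕ} : ((Q.j n)⁻¹ : Tˣ).val ∈ Q.C (n + 1) := by
  intro m hm
  have := Q.j_mem (n := n) m hm
  exact ⟨this.1.units_inv_left, this.2.units_inv_left⟩

theorem C_mono {m n : ℕ} (h : m ≤ n) : Q.C m ≤ Q.C n := by
  intro x hx k hk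
  exact hx k (h.trans hk)

/-- An element commuting with `j n` and the later pairs is a combination of elements commuting
with `i n` as well. -/
theorem split (u v : Tˣ) (hv : ∀ x : T, (u * u : T) * x = x * (u * u))
    (huv : (u : T) * v = -(v * u)) (x : T) :
    ∃ a b : T, x = a + b * (v⁻¹ : Tˣ).val ∧ Commute a u ∧ Commute b u ∧
      a = Q.half * (x + u * x * (u⁻¹ : Tˣ).val) ∧
      b = Q.half * (x - u * x * (u⁻¹ : Tˣ).val) * v := by
  have huinv : ∀ y : T, u * (u * y * (u⁻¹ : Tˣ).val) * (u⁻¹ : Tˣ).val = y := by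
    intro y
    have : u * (u * y * (u⁻¹ : Tˣ).val) * (u⁻¹ : Tˣ).val
        = (u * u * y) * (u⁻¹ : Tˣ).val * (u⁻¹ : Tˣ).val := by noncomm_ring
    rw [this, hv]
    have : y * (u * u) * (u⁻¹ : Tˣ).val * (u⁻¹ : Tˣ).val
        = y * (u * (u * (u⁻¹ : Tˣ).val) * (u⁻¹ : Tˣ).val) := by noncomm_ring
    rw [this]; simp
  have key : ∀ y z : T, u * y * (u⁻¹ : Tˣ).val = z → u * y = z * u := by
    intro y z h
    rw [← h]; simp [mul_assoc]
  refine ⟨Q.half * (x + u * x * (u⁻¹ : Tˣ).val), Q.half * (x - u * x * (u⁻¹ : Tˣ).val) * v,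
    ?_, ?_, ?_, rfl, rfl⟩
  · rw [mul_assoc _ (v : T), Units.mul_inv, mul_one, ← mul_add]
    have : x + u * x * (u⁻¹ : Tˣ).val + (x - u * x * (u⁻¹ : Tˣ).val) = x + x := by abel
    rw [this, Q.half_mul_add]
  · apply (Q.half_comm _).mul_left
    change (x + u * x * (u⁻¹ : Tˣ).val) * u = u * (x + u * x * (u⁻¹ : Tˣ).val)
    symm
    apply key
    rw [mul_add, add_mul, huinv, add_comm]
  · rw [mul_assoc]
    apply (Q.half_comm _).mul_left
    change (x - u * x * (u⁻¹ : Tˣ).val) * v * u = u * ((x - u * x * (u⁻¹ : Tˣ).val) * v)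
    have h1 : u * (x - u * x * (u⁻¹ : Tˣ).val) = -((x - u * x * (u⁻¹ : Tˣ).val)) * u := by
      apply key
      rw [mul_sub, sub_mul, huinv]
      abel
    rw [← mul_assoc, h1, mul_assoc (-_), huv]
    noncomm_ring

theorem conj_mem {n : ℕ} {u : Tˣ} (hu : (u : T) ∈ Q.C n) (huinv : ((u⁻¹ : Tˣ) : T) ∈ Q.C n)
    {x : T} (hx : x ∈ Q.C n) : (u * x * (u⁻¹ : Tˣ).val) ∈ Q.C n :=
  (Q.C n).mul_mem ((Q.C n).mul_mem hu hx) huinv

theorem decomp {n : ℕ} {x : T} (hx : x ∈ Q.C (n + 1)) :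
    ∃ a b d f : T, a ∈ Q.C n ∧ b ∈ Q.C n ∧ d ∈ Q.C n ∧ f ∈ Q.C n ∧
      x = a + b * ((Q.i n)⁻¹ : Tˣ).val + d * ((Q.j n)⁻¹ : Tˣ).val
        + f * (((Q.i n)⁻¹ : Tˣ).val * ((Q.j n)⁻¹ : Tˣ).val) := by
  -- first make the parts commute with `i n`
  obtain ⟨p, q, hpq, hp, hq, hp', hq'⟩ := Q.split (Q.i n) (Q.j n) (Q.hi2 n) (Q.hanti n) x
  have hpm : p ∈ Q.C (n + 1) := by
    rw [hp']
    exact (Q.C _).mul_mem (Q.half_mem _)
      ((Q.C _).add_mem hx (Q.conj_mem Q.i_mem Q.iinv_mem hx))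
  have hqm : q ∈ Q.C (n + 1) := by
    rw [hq']
    exact (Q.C _).mul_mem ((Q.C _).mul_mem (Q.half_mem _)
      ((Q.C _).sub_mem hx (Q.conj_mem Q.i_mem Q.iinv_mem hx))) Q.j_mem
  have main : ∀ y : T, y ∈ Q.C (n + 1) → Commute y (Q.i n) →
      ∃ a b : T, a ∈ Q.C n ∧ b ∈ Q.C n ∧ y = a + b * ((Q.i n)⁻¹ : Tˣ).val := by
    intro y hy hyi
    obtain ⟨a, b, hab, ha, hb, ha', hb'⟩ := Q.split (Q.j n) (Q.i n) (Q.hj2 n)
      (by rw [Q.hanti n, neg_neg]) y
    have ham : a ∈ Q.C (n + 1) := by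
      rw [ha']
      exact (Q.C _).mul_mem (Q.half_mem _)
        ((Q.C _).add_mem hy (Q.conj_mem Q.j_mem Q.jinv_mem hy))
    have hbm : b ∈ Q.C (n + 1) := by
      rw [hb']
      exact (Q.C _).mul_mem ((Q.C _).mul_mem (Q.half_mem _)
        ((Q.C _).sub_mem hy (Q.conj_mem Q.j_mem Q.jinv_mem hy))) Q.i_mem
    have hconj : Commute ((Q.j n : T) * y * ((Q.j n)⁻¹ : Tˣ).val) (Q.i n) := by
      have e1 : (Q.i n : T) * ((Q.j n)⁻¹ : Tˣ).val = -(((Q.j n)⁻¹ : Tˣ).val * Q.i n) := by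
        have h0 := Q.hanti n
        have h1 : (((Q.j n)⁻¹ : Tˣ) : T) * ((Q.i n : T) * Q.j n) * ((Q.j n)⁻¹ : Tˣ).val
          = (((Q.j n)⁻¹ : Tˣ) : T) * (-(Q.j n * Q.i n : T)) * ((Q.j n)⁻¹ : Tˣ).val := by rw [h0]
        have h2 : (((Q.j n)⁻¹ : Tˣ) : T) * ((Q.i n : T) * Q.j n) * ((Q.j n)⁻¹ : Tˣ).val
          = (((Q.j n)⁻¹ : Tˣ) : T) * (Q.i n : T) := by
          rw [mul_assoc, mul_assoc, Units.mul_inv, mul_one]
        have h3 : (((Q.j n)⁻¹ : Tˣ) : T) * (-(Q.j n * Q.i n : T)) * ((Q.j n)⁻¹ : Tˣ).val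
          = -((Q.i n : T) * ((Q.j n)⁻¹ : Tˣ).val) := by
          rw [mul_neg, ← mul_assoc, Units.inv_mul, one_mul, neg_mul]
        rw [h2, h3] at h1
        rw [h1, neg_neg]
      have e2 : (Q.i n : T) * Q.j n = -(Q.j n * Q.i n) := Q.hanti n
      have e3 : y * (Q.i n : T) = Q.i n * y := hyi
      change (Q.j n : T) * y * ((Q.j n)⁻¹ : Tˣ).val * Q.i n =
        Q.i n * ((Q.j n : T) * y * ((Q.j n)⁻¹ : Tˣ).val)
      calc (Q.j n : T) * y * ((Q.j n)⁻¹ : Tˣ).val * Q.i n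
          = (Q.j n : T) * y * (-(-(((Q.j n)⁻¹ : Tˣ).val * Q.i n))) := by noncomm_ring
        _ = (Q.j n : T) * y * (-((Q.i n : T) * ((Q.j n)⁻¹ : Tˣ).val)) := by rw [e1]
        _ = -((Q.j n : T) * (y * (Q.i n : T)) * ((Q.j n)⁻¹ : Tˣ).val) := by noncomm_ring
        _ = -((Q.j n : T) * (Q.i n * y) * ((Q.j n)⁻¹ : Tˣ).val) := by rw [e3]
        _ = (-((Q.j n : T) * Q.i n)) * y * ((Q.j n)⁻¹ : Tˣ).val := by noncomm_ring
        _ = Q.i n * Q.j n * y * ((Q.j n)⁻¹ : Tˣ).val := by rw [e2]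
        _ = Q.i n * ((Q.j n : T) * y * ((Q.j n)⁻¹ : Tˣ).val) := by noncomm_ring
    have hai : Commute a (Q.i n) := by
      rw [ha']
      exact (Q.half_comm _).mul_left (hyi.add_left hconj)
    have hbi : Commute b (Q.i n) := by
      rw [hb']
      exact ((Q.half_comm _).mul_left (hyi.sub_left hconj)).mul_left (Commute.refl _)
    refine ⟨a, b, ?_, ?_, hab⟩
    · intro m hm
      rcases Nat.eq_or_lt_of_le hm with h | h
      · subst h; exact ⟨hai, ha⟩
      · exact ham m h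
    · intro m hm
      rcases Nat.eq_or_lt_of_le hm with h | h
      · subst h; exact ⟨hbi, hb⟩
      · exact hbm m h
  obtain ⟨a, b, ha, hb, hab⟩ := main p hpm hp
  obtain ⟨d, f, hd, hf, hdf⟩ := main q hqm hq
  refine ⟨a, b, d, f, ha, hb, hd, hf, ?_⟩
  rw [hpq, hab, hdf]
  noncomm_ring

theorem C_fg (n : ℕ) : (Subalgebra.toSubmodule (Q.C n)).FG := by
  induction n with
  | zero =>
    rw [Q.C_zero]
    exact Subalgebra.fg_bot_toSubmodule
  | succ n ih =>
    let W : Submodule (Subring.center T) T :=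
      Subalgebra.toSubmodule (Q.C n)
      ⊔ (Subalgebra.toSubmodule (Q.C n)).map
          (LinearMap.mulRight (Subring.center T) ((Q.i n)⁻¹ : Tˣ).val)
      ⊔ (Subalgebra.toSubmodule (Q.C n)).map
          (LinearMap.mulRight (Subring.center T) ((Q.j n)⁻¹ : Tˣ).val)
      ⊔ (Subalgebra.toSubmodule (Q.C n)).map
          (LinearMap.mulRight (Subring.center T)
            (((Q.i n)⁻¹ : Tˣ).val * ((Q.j n)⁻¹ : Tˣ).val))
    have hW : Subalgebra.toSubmodule (Q.C (n + 1)) = W := by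
      apply le_antisymm
      · intro x hx
        obtain ⟨a, b, d, f, ha, hb, hd, hf, rfl⟩ := Q.decomp hx
        apply Submodule.add_mem_sup
        · apply Submodule.add_mem_sup
          · apply Submodule.add_mem_sup
            · exact ha
            · exact ⟨b, hb, rfl⟩
          · exact ⟨d, hd, rfl⟩
        · exact ⟨f, hf, rfl⟩
      · refine sup_le (sup_le (sup_le ?_ ?_) ?_) ?_
        · exact Q.C_mono (Nat.le_succ n)
        · rintro _ ⟨b, hb, rfl⟩
          exact (Q.C (n + 1)).mul_mem (Q.C_mono (Nat.le_succ n) hb) Q.iinv_mem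
        · rintro _ ⟨b, hb, rfl⟩
          exact (Q.C (n + 1)).mul_mem (Q.C_mono (Nat.le_succ n) hb) Q.jinv_mem
        · rintro _ ⟨b, hb, rfl⟩
          exact (Q.C (n + 1)).mul_mem (Q.C_mono (Nat.le_succ n) hb)
            ((Q.C (n + 1)).mul_mem Q.iinv_mem Q.jinv_mem)
    rw [hW]
    exact ((ih.sup (ih.map _)).sup (ih.map _)).sup (ih.map _)

include Q in
/-- Such a ring is integral over its centre. -/
theorem isInt (x : T) : IsIntegral (Subring.center T) x := by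
  obtain ⟨N, hN⟩ := Q.ev x
  exact IsIntegral.of_mem_of_fg (Q.C N) (Q.C_fg N) x hN

end QSys

end Pool.Agent.Helper282.Quat
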