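import Mathlib
import Pool.Agent.Helper282.Quat

set_option autoImplicit false

namespace Pool.Agent.Helper282.Quat

namespace QSys

variable {T : Type} [DivisionRing T] (Q : QSys T)

include Q in
theorem ne_neg {x : T} (hx : x ≠ 0) : x ≠ -x := by
  intro h
  apply hx
  have h1 : x + x = 0 := by
    nth_rewrite 2 [h]; simp
  have h2 := Q.half_mul_add x
  rw [h1, mul_zero] at h2
  exact h2.symm

/-- The product of the first variable of a pair and the second variable of the next pair. -/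
def w (n : ℕ) : T := Q.i n * Q.j (n + 1)

theorem w_ne_zero (n : ℕ) : Q.w n ≠ 0 := by
  unfold w
  exact mul_ne_zero (Units.ne_zero _) (Units.ne_zero _)

theorem j_w (n : ℕ) : (Q.j n : T) * Q.w n = -(Q.w n * Q.j n) := by
  unfold w
  have h1 : (Q.j n : T) * (Q.i n * Q.j (n + 1)) = -(-(Q.j n * Q.i n : T)) * Q.j (n + 1) := by
    noncomm_ring
  have h2 : (Q.j (n + 1) : T) * Q.j n = Q.j n * Q.j (n + 1) := Q.hjj (n + 1) n
  rw [h1, ← Q.hanti, mul_assoc, h2]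
  noncomm_ring

theorem w_ne_one (n : ℕ) : Q.w n ≠ 1 := by
  intro h
  have h1 := Q.j_w n
  rw [h, mul_one, one_mul] at h1
  exact Q.ne_neg (Units.ne_zero _) h1

theorem w_ne_neg_one (n : ℕ) : Q.w n ≠ -1 := by
  intro h
  have h1 := Q.j_w n
  rw [h, mul_neg, mul_one, neg_mul, neg_neg, one_mul] at h1
  exact Q.ne_neg (Units.ne_zero _) h1.symm

theorem u_ne_zero (n : ℕ) : 1 + Q.w n ≠ 0 := by
  intro h
  exact Q.w_ne_neg_one n (eq_neg_of_add_eq_zero_right h)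

theorem v_ne_zero (n : ℕ) : 1 - Q.w n ≠ 0 := by
  intro h
  exact Q.w_ne_one n (sub_eq_zero.1 h).symm

theorem w_comm {n : ℕ} {x : T} (hx : x ∈ Q.C n) : Commute x (Q.w n) := by
  unfold w
  exact (hx n le_rfl).1.mul_right (hx (n + 1) (Nat.le_succ n)).2

theorem ww (n : ℕ) : Q.w n * Q.w n = (Q.i n * Q.i n) * (Q.j (n + 1) * Q.j (n + 1)) := by
  unfold w
  have h := Q.hij n (n + 1) (by omega)
  calc (Q.i n : T) * Q.j (n + 1) * (Q.i n * Q.j (n + 1))
      = Q.i n * (Q.j (n + 1) * Q.i n) * Q.j (n + 1) := by noncomm_ring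
    _ = Q.i n * (Q.i n * Q.j (n + 1)) * Q.j (n + 1) := by rw [h]
    _ = _ := by noncomm_ring

theorem ww_central (n : ℕ) (x : T) : Commute (Q.w n * Q.w n) x := by
  rw [ww]
  exact Commute.mul_left (Q.hi2 n x) (Q.hj2 (n + 1) x)

theorem central_mem {x : T} (hx : ∀ y, Commute x y) (n : ℕ) : x ∈ Q.C n :=
  fun _ _ => ⟨hx _, hx _⟩

theorem key (n : ℕ) : (1 + Q.w n) * (1 - Q.w n) = 1 - Q.w n * Q.w n := by noncomm_ring

theorem one_sub_ne (n : ℕ) : 1 - Q.w n * Q.w n ≠ 0 := by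
  rw [← Q.key]; exact mul_ne_zero (Q.u_ne_zero n) (Q.v_ne_zero n)

/-- One step of the recursion. -/
theorem step (n : ℕ) (X Y : T) (hX : X ∈ Q.C n) (hY : Y ∈ Q.C n) (hY0 : Y ≠ 0) :
    ∃ X' Y' : T, X' ∈ Q.C (n + 1) ∧ Y' ∈ Q.C (n + 1) ∧ Y' ≠ 0 ∧
      (1 + Q.w n) * (X' + Y' * Q.j (n + 1)) = (X + Y * Q.j n) * (1 + Q.w n) := by
  set c := Q.w n * Q.w n with hc
  have hcc : ∀ y, Commute c y := Q.ww_central n
  have hdc : ∀ y, Commute (1 - c)⁻¹ y := fun y => ((Commute.one_left y).sub_left (hcc y)).inv_left₀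
  set d := (1 - c)⁻¹ with hd
  have hd1 : d * (1 - c) = 1 := inv_mul_cancel₀ (Q.one_sub_ne n)
  have hdm : d ∈ Q.C (n + 1) := Q.central_mem hdc _
  have hcm : c ∈ Q.C (n + 1) := Q.central_mem hcc _
  have hXm := Q.C_mono (Nat.le_succ n) hX
  have hYm := Q.C_mono (Nat.le_succ n) hY
  refine ⟨X + Y * d * (1 + c) * Q.j n, -((Y + Y) * d * (Q.i n * Q.j n)), ?_, ?_, ?_, ?_⟩
  · exact (Q.C _).add_mem hXm ((Q.C _).mul_mem ((Q.C _).mul_mem ((Q.C _).mul_mem hYm hdm)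
      ((Q.C _).add_mem (Q.C _).one_mem hcm)) Q.j_mem)
  · exact (Q.C _).neg_mem ((Q.C _).mul_mem ((Q.C _).mul_mem ((Q.C _).add_mem hYm hYm) hdm)
      ((Q.C _).mul_mem Q.i_mem Q.j_mem))
  · rw [neg_ne_zero]
    refine mul_ne_zero (mul_ne_zero ?_ ?_) (mul_ne_zero (Units.ne_zero _) (Units.ne_zero _))
    · intro h
      have := Q.half_mul_add Y
      rw [h, mul_zero] at this
      exact hY0 this.symm
    · exact inv_ne_zero (Q.one_sub_ne n)
  · have hXw : X * Q.w n = Q.w n * X := Q.w_comm hX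
    have hYw : Y * Q.w n = Q.w n * Y := Q.w_comm hY
    have hjw := Q.j_w n
    have hij : (Q.i n : T) * Q.j n * Q.j (n + 1) = Q.w n * Q.j n := by
      unfold w
      rw [mul_assoc, Q.hjj n (n + 1), ← mul_assoc]
    have hdY : d * Y = Y * d := hdc Y
    have e1 : X + Y * d * (1 + c) * Q.j n + -((Y + Y) * d * (Q.i n * Q.j n)) * Q.j (n + 1)
        = X + Y * (d * ((1 - Q.w n) * (1 - Q.w n))) * Q.j n := by
      have : -((Y + Y) * d * (Q.i n * Q.j n)) * Q.j (n + 1)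
          = -((Y + Y) * d * (Q.i n * Q.j n * Q.j (n + 1))) := by noncomm_ring
      rw [this, hij, hc]
      noncomm_ring
    rw [e1]
    have e2 : (1 + Q.w n) * (X + Y * (d * ((1 - Q.w n) * (1 - Q.w n))) * Q.j n)
        = X * (1 + Q.w n) + Y * (((1 + Q.w n) * d) * ((1 - Q.w n) * (1 - Q.w n))) * Q.j n := by
      have e3 : (1 + Q.w n) * X = X * (1 + Q.w n) := by
        rw [mul_add, add_mul, hXw]; simp
      have e4 : (1 + Q.w n) * Y = Y * (1 + Q.w n) := by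
        rw [mul_add, add_mul, hYw]; simp
      rw [mul_add, e3, ← mul_assoc, ← mul_assoc, e4]
      noncomm_ring
    have e5 : (1 + Q.w n) * d = d * (1 + Q.w n) := (hdc _).symm.eq
    have e6 : ((1 + Q.w n) * d) * ((1 - Q.w n) * (1 - Q.w n)) = 1 - Q.w n := by
      rw [e5]
      calc d * (1 + Q.w n) * ((1 - Q.w n) * (1 - Q.w n))
          = d * ((1 + Q.w n) * (1 - Q.w n)) * (1 - Q.w n) := by noncomm_ring
        _ = 1 - Q.w n := by rw [Q.key, ← hc, hd1, one_mul]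
    rw [e2, e6]
    have e7 : (Q.j n : T) * (1 + Q.w n) = (1 - Q.w n) * Q.j n := by
      rw [mul_add, hjw]; noncomm_ring
    rw [add_mul, mul_assoc Y (Q.j n : T), e7]
    noncomm_ring

/-- Products of the first factors. -/
def P : ℕ → T
  | 0 => 1
  | n + 1 => P n * (1 + Q.w n)

theorem P_ne_zero (n : ℕ) : Q.P n ≠ 0 := by
  induction n with
  | zero => exact one_ne_zero
  | succ n ih => exact mul_ne_zero ih (Q.u_ne_zero n)

theorem conj_stable {n m : ℕ} (h : n ≤ m) {x : T} (hx : x ∈ Q.C n) :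
    Q.P m * x * (Q.P m)⁻¹ = Q.P n * x * (Q.P n)⁻¹ := by
  induction m, h using Nat.le_induction with
  | base => rfl
  | succ m hm ih =>
    rw [← ih]
    have hxw : (1 + Q.w m) * x = x * (1 + Q.w m) := by
      have := Q.w_comm (Q.C_mono hm hx)
      rw [mul_add, add_mul, this.eq]; simp
    change Q.P m * (1 + Q.w m) * x * (Q.P m * (1 + Q.w m))⁻¹ = _
    rw [mul_inv_rev, mul_assoc (Q.P m), hxw]
    have h0 := Q.u_ne_zero m
    calc Q.P m * (x * (1 + Q.w m)) * ((1 + Q.w m)⁻¹ * (Q.P m)⁻¹)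
        = Q.P m * x * ((1 + Q.w m) * (1 + Q.w m)⁻¹) * (Q.P m)⁻¹ := by noncomm_ring
      _ = _ := by rw [mul_inv_cancel₀ h0, mul_one]

/-- The underlying function of the endomorphism. -/
noncomputable def sigmaFun (x : T) : T :=
  Q.P (Q.ev x).choose * x * (Q.P (Q.ev x).choose)⁻¹

theorem sigmaFun_eq {n : ℕ} {x : T} (hx : x ∈ Q.C n) :
    Q.sigmaFun x = Q.P n * x * (Q.P n)⁻¹ := by
  unfold sigmaFun
  have h1 : x ∈ Q.C (Q.ev x).choose := (Q.ev x).choose_spec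
  rw [← Q.conj_stable (le_max_left (Q.ev x).choose n) h1,
    Q.conj_stable (le_max_right (Q.ev x).choose n) hx]

/-- The endomorphism, a limit of inner automorphisms. -/
noncomputable def sigma : T →+* T where
  toFun := Q.sigmaFun
  map_one' := by
    rw [Q.sigmaFun_eq (Q.C 0).one_mem]; simp [P]
  map_zero' := by
    rw [Q.sigmaFun_eq (Q.C 0).zero_mem]; simp
  map_add' x y := by
    obtain ⟨N, hN⟩ := Q.ev x
    obtain ⟨M, hM⟩ := Q.ev y
    have hx : x ∈ Q.C (max N M) := Q.C_mono (le_max_left _ _) hN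
    have hy : y ∈ Q.C (max N M) := Q.C_mono (le_max_right _ _) hM
    rw [Q.sigmaFun_eq hx, Q.sigmaFun_eq hy, Q.sigmaFun_eq ((Q.C _).add_mem hx hy)]
    noncomm_ring
  map_mul' x y := by
    obtain ⟨N, hN⟩ := Q.ev x
    obtain ⟨M, hM⟩ := Q.ev y
    have hx : x ∈ Q.C (max N M) := Q.C_mono (le_max_left _ _) hN
    have hy : y ∈ Q.C (max N M) := Q.C_mono (le_max_right _ _) hM
    rw [Q.sigmaFun_eq hx, Q.sigmaFun_eq hy, Q.sigmaFun_eq ((Q.C _).mul_mem hx hy)]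
    have h0 := Q.P_ne_zero (max N M)
    calc Q.P (max N M) * (x * y) * (Q.P (max N M))⁻¹
        = Q.P (max N M) * x * 1 * y * (Q.P (max N M))⁻¹ := by noncomm_ring
      _ = Q.P (max N M) * x * ((Q.P (max N M))⁻¹ * Q.P (max N M)) * y * (Q.P (max N M))⁻¹ := by
          rw [inv_mul_cancel₀ h0]
      _ = _ := by noncomm_ring

theorem sigma_apply {n : ℕ} {x : T} (hx : x ∈ Q.C n) :
    Q.sigma x = Q.P n * x * (Q.P n)⁻¹ := Q.sigmaFun_eq hx

theorem sigma_central {x : T} (hx : ∀ y, Commute x y) : Q.sigma x = x := by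
  rw [Q.sigma_apply (Q.central_mem hx 0)]; simp [P]

theorem orbit (n : ℕ) : ∃ X Y : T, X ∈ Q.C n ∧ Y ∈ Q.C n ∧ Y ≠ 0 ∧
    Q.P n * (X + Y * Q.j n) = Q.j 0 * Q.P n := by
  induction n with
  | zero => exact ⟨0, 1, (Q.C 0).zero_mem, (Q.C 0).one_mem, one_ne_zero, by simp [P]⟩
  | succ n ih =>
    obtain ⟨X, Y, hX, hY, hY0, h⟩ := ih
    obtain ⟨X', Y', hX', hY', hY0', h'⟩ := Q.step n X Y hX hY hY0
    refine ⟨X', Y', hX', hY', hY0', ?_⟩
    change Q.P n * (1 + Q.w n) * (X' + Y' * Q.j (n + 1)) = Q.j 0 * (Q.P n * (1 + Q.w n))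
    rw [mul_assoc, h', ← mul_assoc, h, mul_assoc]

theorem sigma_not_surjective : ¬ Function.Surjective Q.sigma := by
  intro hs
  obtain ⟨x, hx⟩ := hs (Q.j 0)
  obtain ⟨n, hn⟩ := Q.ev x
  have hn' : x ∈ Q.C n := hn
  rw [Q.sigma_apply hn'] at hx
  obtain ⟨X, Y, hX, hY, hY0, h⟩ := Q.orbit n
  have h0 := Q.P_ne_zero n
  have h1 : x = X + Y * Q.j n := by
    apply mul_left_cancel₀ h0
    rw [h, ← hx, mul_assoc (Q.P n * x), inv_mul_cancel₀ h0, mul_one]
  have h2 : Y * Q.j n ∈ Q.C n := by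
    have : Y * Q.j n = x - X := by rw [h1]; abel
    rw [this]; exact (Q.C n).sub_mem hn' hX
  have h3 : Y * Q.j n * Q.i n = Q.i n * (Y * Q.j n) := (h2 n le_rfl).1
  have h4 : Y * Q.i n = Q.i n * Y := (hY n le_rfl).1
  rw [← mul_assoc, ← h4, mul_assoc, mul_assoc] at h3
  have h5 := mul_left_cancel₀ hY0 h3
  rw [Q.hanti n] at h5
  exact Q.ne_neg (mul_ne_zero (Units.ne_zero _) (Units.ne_zero _)) h5

end QSys

end Pool.Agent.Helper282.Quat
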