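import Mathlib

set_option autoImplicit false

namespace Pool.Agent.Helper282.Twisted

/-- Exponent vectors of Laurent monomials in two countable families of variables. -/
abbrev A := (ℕ →₀ ℤ) × (ℕ →₀ ℤ)

/-- The standard pairing of exponent vectors. -/
noncomputable def pr (b a : ℕ →₀ ℤ) : ℤ := b.sum fun m x => x * a m

theorem pr_add_left (b b' a : ℕ →₀ ℤ) : pr (b + b') a = pr b a + pr b' a := by
  unfold pr
  rw [Finsupp.sum_add_index'] <;> intros <;> ring

theorem pr_add_right (b a a' : ℕ →₀ ℤ) : pr b (a + a') = pr b a + pr b a' := by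
  unfold pr
  rw [← Finsupp.sum_add]
  apply Finsupp.sum_congr
  intro x _
  simp [mul_add]

theorem pr_zero_left (a : ℕ →₀ ℤ) : pr 0 a = 0 := by
  unfold pr; exact Finsupp.sum_zero_index

theorem pr_zero_right (b : ℕ →₀ ℤ) : pr b 0 = 0 := by
  unfold pr; simp

theorem pr_single_left (m : ℕ) (x : ℤ) (a : ℕ →₀ ℤ) :
    pr (Finsupp.single m x) a = x * a m := by
  unfold pr; rw [Finsupp.sum_single_index]; simp

theorem pr_single_right (b : ℕ →₀ ℤ) (m : ℕ) (x : ℤ) :
    pr b (Finsupp.single m x) = b m * x := by
  classical
  unfold pr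
  rw [Finsupp.sum, Finset.sum_eq_single m]
  · simp
  · intro k _ hk; simp [hk.symm]
  · intro h; simp [Finsupp.notMem_support_iff.1 h]

/-- The sign by which two monomials multiply. -/
noncomputable def c (a b : A) : ℚ := ((Int.negOnePow (pr a.2 b.1) : ℤˣ) : ℤ)

theorem c_add_left (a b d : A) : c (a + b) d = c a d * c b d := by
  simp [c, pr_add_left, Int.negOnePow_add]

theorem c_add_right (a b d : A) : c a (b + d) = c a b * c a d := by
  simp [c, pr_add_right, Int.negOnePow_add]

theorem c_mul_self (a b : A) : c a b * c a b = 1 := by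
  unfold c
  rw [← Int.cast_mul, ← Units.val_mul, Int.units_mul_self]; simp

theorem c_ne_zero (a b : A) : c a b ≠ 0 := by
  intro h
  have := c_mul_self a b
  rw [h] at this; simp at this

theorem c_zero_left (b : A) : c 0 b = 1 := by
  simp [c, pr_zero_left]

theorem c_zero_right (a : A) : c a 0 = 1 := by
  simp [c, pr_zero_right]

/-- Multiplication on finitely supported functions. -/
noncomputable def mulF (f g : A →₀ ℚ) : A →₀ ℚ :=
  f.sum fun a x => g.sum fun b y => Finsupp.single (a + b) (c a b * x * y)

theorem mulF_single (a b : A) (x y : ℚ) :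
    mulF (Finsupp.single a x) (Finsupp.single b y) = Finsupp.single (a + b) (c a b * x * y) := by
  unfold mulF
  rw [Finsupp.sum_single_index, Finsupp.sum_single_index]
  · simp
  · simp

theorem zero_mulF (f : A →₀ ℚ) : mulF 0 f = 0 := by
  unfold mulF; exact Finsupp.sum_zero_index

theorem mulF_zero (f : A →₀ ℚ) : mulF f 0 = 0 := by
  unfold mulF
  apply Finset.sum_eq_zero
  intro a _
  exact Finsupp.sum_zero_index

theorem add_mulF (f g h : A →₀ ℚ) : mulF (f + g) h = mulF f h + mulF g h := by
  unfold mulF
  apply Finsupp.sum_add_index'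
  · intro a
    apply Finset.sum_eq_zero
    intro b _
    simp
  · intro a x y
    rw [← Finsupp.sum_add]
    apply Finsupp.sum_congr
    intro b _
    rw [← Finsupp.single_add]
    congr 1
    ring

theorem mulF_add (f g h : A →₀ ℚ) : mulF f (g + h) = mulF f g + mulF f h := by
  unfold mulF
  rw [← Finsupp.sum_add]
  apply Finsupp.sum_congr
  intro a _
  apply Finsupp.sum_add_index'
  · intro b; simp
  · intro b x y
    rw [← Finsupp.single_add]
    congr 1
    ring

theorem mulF_assoc (f g h : A →₀ ℚ) : mulF (mulF f g) h = mulF f (mulF g h) := by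
  induction f using Finsupp.induction_linear with
  | zero => simp [zero_mulF]
  | add f1 f2 h1 h2 => simp [add_mulF, h1, h2]
  | single a x =>
    induction g using Finsupp.induction_linear with
    | zero => simp [zero_mulF, mulF_zero]
    | add f1 f2 h1 h2 => simp [add_mulF, mulF_add, h1, h2]
    | single b y =>
      induction h using Finsupp.induction_linear with
      | zero => simp [mulF_zero]
      | add f1 f2 h1 h2 => simp [mulF_add, h1, h2]
      | single d z =>
        simp only [mulF_single, c_add_left, c_add_right, add_assoc]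
        congr 1
        ring

theorem mulF_apply (f g : A →₀ ℚ) (d : A) : mulF f g d =
    ∑ a ∈ f.support, ∑ b ∈ g.support, if a + b = d then c a b * f a * g b else 0 := by
  classical
  unfold mulF Finsupp.sum
  rw [Finset.sum_apply']
  apply Finset.sum_congr rfl
  intro a _
  rw [Finset.sum_apply']
  apply Finset.sum_congr rfl
  intro b _
  rw [Finsupp.single_apply]

theorem mulF_ne_zero (f g : A →₀ ℚ) (hf : f ≠ 0) (hg : g ≠ 0) : mulF f g ≠ 0 := by
  classical
  intro hfg
  obtain ⟨a0, ha0, b0, hb0, hu⟩ := UniqueSums.uniqueAdd_of_nonempty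
    (Finsupp.support_nonempty_iff.2 hf) (Finsupp.support_nonempty_iff.2 hg)
  have h1 := mulF_apply f g (a0 + b0)
  rw [hfg, Finsupp.coe_zero, Pi.zero_apply, Finset.sum_eq_single a0,
    Finset.sum_eq_single b0] at h1
  · simp only [if_true] at h1
    exact mul_ne_zero (mul_ne_zero (c_ne_zero a0 b0) (Finsupp.mem_support_iff.1 ha0))
      (Finsupp.mem_support_iff.1 hb0) h1.symm
  · intro b hb hbne
    rw [if_neg]
    intro h
    exact hbne (hu ha0 hb h).2
  · intro h; exact absurd hb0 h
  · intro a ha hane
    apply Finset.sum_eq_zero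
    intro b hb
    rw [if_neg]
    intro h
    exact hane (hu ha hb h).1
  · intro h; exact absurd ha0 h

/-- The twisted group algebra: finitely supported rational functions on exponents. -/
structure Tw where
  /-- The coefficients. -/
  co : A →₀ ℚ

namespace Tw

/-- The obvious bijection. -/
def equiv : Tw ≃ (A →₀ ℚ) := ⟨Tw.co, Tw.mk, fun _ => rfl, fun _ => rfl⟩

noncomputable instance : AddCommGroup Tw := equiv.addCommGroup

@[ext] theorem ext' {f g : Tw} (h : f.co = g.co) : f = g := by
  cases f; cases g; simp_all

noncomputable instance : Mul Tw := ⟨fun f g => ⟨mulF f.co g.co⟩⟩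

noncomputable instance : One Tw := ⟨⟨Finsupp.single 0 1⟩⟩

@[simp] theorem co_add (f g : Tw) : (f + g).co = f.co + g.co := rfl
@[simp] theorem co_zero : (0 : Tw).co = 0 := rfl
@[simp] theorem co_neg (f : Tw) : (-f).co = -f.co := rfl
@[simp] theorem co_mul (f g : Tw) : (f * g).co = mulF f.co g.co := rfl
@[simp] theorem co_one : (1 : Tw).co = Finsupp.single 0 1 := rfl

/-- The monomial with a given exponent and coefficient. -/
noncomputable def e (a : A) (x : ℚ) : Tw := ⟨Finsupp.single a x⟩

@[simp] theorem co_e (a : A) (x : ℚ) : (e a x).co = Finsupp.single a x := rfl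

theorem one_def : (1 : Tw) = e 0 1 := rfl

theorem e_add (a : A) (x y : ℚ) : e a (x + y) = e a x + e a y := by
  ext1; simp

theorem e_zero (a : A) : e a 0 = 0 := by
  ext1; simp

theorem e_mul_e (a b : A) (x y : ℚ) : e a x * e b y = e (a + b) (c a b * x * y) := by
  ext1; simp [mulF_single]

theorem ind {p : Tw → Prop} (f : Tw) (h0 : p 0) (ha : ∀ f g, p f → p g → p (f + g))
    (hs : ∀ a x, p (e a x)) : p f := by
  obtain ⟨f⟩ := f
  induction f using Finsupp.induction_linear with
  | zero => exact h0
  | add f g h1 h2 => exact ha _ _ h1 h2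
  | single a x => exact hs a x

noncomputable instance instRing : Ring Tw where
  __ := (inferInstance : AddCommGroup Tw)
  mul := (· * ·)
  one := 1
  mul_assoc f g h := by ext1; simp [mulF_assoc]
  one_mul f := by
    induction f using ind with
    | h0 => ext1; simp [mulF_zero]
    | ha f1 f2 h1 h2 =>
      ext1
      have e1 := congrArg Tw.co h1
      have e2 := congrArg Tw.co h2
      simp only [co_mul, co_add] at e1 e2 ⊢
      rw [mulF_add, e1, e2]
    | hs a x => rw [one_def, e_mul_e, c_zero_left]; simp
  mul_one f := by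
    induction f using ind with
    | h0 => ext1; simp [zero_mulF]
    | ha f1 f2 h1 h2 =>
      ext1
      have e1 := congrArg Tw.co h1
      have e2 := congrArg Tw.co h2
      simp only [co_mul, co_add] at e1 e2 ⊢
      rw [add_mulF, e1, e2]
    | hs a x => rw [one_def, e_mul_e, c_zero_right]; simp
  left_distrib f g h := by ext1; simp [mulF_add]
  right_distrib f g h := by ext1; simp [add_mulF]
  zero_mul f := by ext1; simp [zero_mulF]
  mul_zero f := by ext1; simp [mulF_zero]

instance : Nontrivial Tw := by
  refine ⟨⟨0, 1, ?_⟩⟩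
  intro h
  have := congrArg (fun f => f.co 0) h
  simp at this

instance : NoZeroDivisors Tw := by
  refine ⟨?_⟩
  intro f g hfg
  by_contra hcon
  rw [not_or] at hcon
  obtain ⟨hf, hg⟩ := hcon
  refine mulF_ne_zero f.co g.co ?_ ?_ (congrArg Tw.co hfg)
  · intro h; exact hf (Tw.ext' h)
  · intro h; exact hg (Tw.ext' h)

end Tw

end Pool.Agent.Helper282.Twisted
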