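import Mathlib
import Pool.Agent.Helper282.Twisted
import Pool.Agent.Helper282.Quat

set_option autoImplicit false

namespace Pool.Agent.Helper282.KField

open Twisted Twisted.Tw Quat

/-! ### The twisted group algebra has the quaternion system -/

theorem c_neg_left (a b : A) : c (-a) b = c a b := by
  have h1 : c (-a) b * c a b = 1 := by
    rw [← c_add_left, neg_add_cancel, c_zero_left]
  have h2 := c_mul_self a b
  have h3 := c_ne_zero a b
  exact mul_right_cancel₀ h3 (h1.trans h2.symm)

theorem c_neg_right (a b : A) : c a (-b) = c a b := by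
  have h1 : c a (-b) * c a b = 1 := by
    rw [← c_add_right, neg_add_cancel, c_zero_right]
  have h2 := c_mul_self a b
  have h3 := c_ne_zero a b
  exact mul_right_cancel₀ h3 (h1.trans h2.symm)

/-- Monomials are units. -/
noncomputable def eU (a : A) : Twˣ where
  val := e a 1
  inv := e (-a) (c a a)
  val_inv := by
    rw [e_mul_e, add_neg_cancel, one_def, c_neg_right, mul_one, c_mul_self]
  inv_val := by
    rw [e_mul_e, neg_add_cancel, one_def, c_neg_left, mul_one, c_mul_self]

@[simp] theorem eU_val (a : A) : (eU a : Tw) = e a 1 := rfl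

theorem e_zero_central (t : ℚ) (x : Tw) : Commute (e 0 t) x := by
  induction x using ind with
  | h0 => exact Commute.zero_right _
  | ha f g hf hg => exact hf.add_right hg
  | hs a x =>
    change e 0 t * e a x = e a x * e 0 t
    rw [e_mul_e, e_mul_e, c_zero_left, c_zero_right, zero_add, add_zero]
    congr 1; ring

theorem e_eq (a : A) (x : ℚ) : e a x = e 0 x * e a 1 := by
  rw [e_mul_e, c_zero_left]; simp

theorem e_comm_e {a b : A} (h : c a b = c b a) (x y : ℚ) : Commute (e a x) (e b y) := by
  change e a x * e b y = e b y * e a x
  rw [e_mul_e, e_mul_e, h, add_comm]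
  congr 1; ring

/-- The exponent of the m-th variable of the first kind. -/
noncomputable def ai (m : ℕ) : A := (Finsupp.single m 1, 0)

/-- The exponent of the m-th variable of the second kind. -/
noncomputable def aj (m : ℕ) : A := (0, Finsupp.single m 1)

theorem c_ai_left (m : ℕ) (b : A) : c (ai m) b = 1 := by
  simp [c, ai, pr_zero_left]

theorem c_aj_right (m : ℕ) (b : A) : c b (aj m) = 1 := by
  simp [c, aj, pr_zero_right]

theorem c_aj_left (m : ℕ) (b : A) : c (aj m) b = ((Int.negOnePow (b.1 m) : ℤˣ) : ℤ) := by
  simp [c, aj, pr_single_left]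

theorem c_ai_right (m : ℕ) (b : A) : c b (ai m) = ((Int.negOnePow (b.2 m) : ℤˣ) : ℤ) := by
  simp [c, ai, pr_single_right]

theorem e_int_mul {B : Type} [Ring B] (f : Tw →+* B) (x : B)
    (hx : ∀ t : ℚ, Commute x (f (e 0 t)))
    (hi : ∀ m, Commute x (f (e (ai m) 1))) (hj : ∀ m, Commute x (f (e (aj m) 1))) (y : Tw) :
    Commute x (f y) := by
  let H : AddSubgroup A :=
    { carrier := {a | Commute x (f (e a 1))}
      zero_mem' := hx 1
      add_mem' := by
        intro a b ha hb
        have : e (a + b) 1 = e 0 (c a b) * (e a 1 * e b 1) := by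
          rw [e_mul_e, e_mul_e, c_zero_left]
          simp [c_mul_self]
        change Commute x (f (e (a + b) 1))
        rw [this, map_mul, map_mul]
        exact (hx _).mul_right (ha.mul_right hb)
      neg_mem' := by
        intro a ha
        have h1 : (((eU a)⁻¹ : Twˣ) : Tw) = e (-a) (c a a) := rfl
        have h2 : e (-a) 1 = e 0 (c a a) * (((eU a)⁻¹ : Twˣ) : Tw) := by
          rw [h1, e_mul_e, c_zero_left]
          simp [c_mul_self]
        change Commute x (f (e (-a) 1))
        rw [h2, map_mul]
        refine (hx _).mul_right ?_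
        have h3 : Commute x ((Units.map (f : Tw →* B) (eU a) : Bˣ) : B) := ha
        exact h3.units_inv_right }
  have hH : ∀ a : A, a ∈ H := by
    rintro ⟨a, b⟩
    have h1 : ((a, 0) : A) ∈ H := by
      induction a using Finsupp.induction_linear with
      | zero => exact H.zero_mem
      | add f g hf hg =>
        have : ((f + g, 0) : A) = (f, 0) + (g, 0) := by simp
        rw [this]; exact H.add_mem hf hg
      | single m n =>
        have : ((Finsupp.single m n, 0) : A) = n • ai m := by
          simp [ai]
        rw [this]; exact H.zsmul_mem (hi m) n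
    have h2 : ((0, b) : A) ∈ H := by
      induction b using Finsupp.induction_linear with
      | zero => exact H.zero_mem
      | add f g hf hg =>
        have : ((0, f + g) : A) = (0, f) + (0, g) := by simp
        rw [this]; exact H.add_mem hf hg
      | single m n =>
        have : ((0, Finsupp.single m n) : A) = n • aj m := by
          simp [aj]
        rw [this]; exact H.zsmul_mem (hj m) n
    have : ((a, b) : A) = (a, 0) + (0, b) := by simp
    rw [this]; exact H.add_mem h1 h2
  induction y using ind with
  | h0 => rw [map_zero]; exact Commute.zero_right _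
  | ha f1 g1 hf hg => rw [map_add]; exact hf.add_right hg
  | hs a t =>
    rw [e_eq, map_mul]
    exact (hx t).mul_right (hH a)

/-- The quaternion system of the twisted group algebra. -/
noncomputable def qTw : QSys Tw where
  i m := eU (ai m)
  j m := eU (aj m)
  half := e 0 (1/2)
  hhalf := by rw [← e_add, one_def]; norm_num
  hii m n := e_comm_e (by rw [c_ai_left, c_ai_left]) 1 1
  hjj m n := e_comm_e (by rw [c_aj_right, c_aj_right]) 1 1
  hij m n hmn := e_comm_e (by
    rw [c_ai_left, c_aj_left]
    simp [ai, hmn]) 1 1
  hanti m := by
    rw [eU_val, eU_val, e_mul_e, e_mul_e, c_ai_left, c_aj_left, add_comm (ai m)]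
    have : (ai m).1 m = 1 := by simp [ai]
    rw [this]
    ext1
    simp
  hi2 m x := by
    rw [eU_val, e_mul_e]
    induction x using ind with
    | h0 => simp
    | ha f g hf hg => rw [mul_add, add_mul, hf, hg]
    | hs a x =>
      apply e_comm_e
      rw [c_add_left, c_add_right, c_mul_self, c_mul_self]
  hj2 m x := by
    rw [eU_val, e_mul_e]
    induction x using ind with
    | h0 => simp
    | ha f g hf hg => rw [mul_add, add_mul, hf, hg]
    | hs a x =>
      apply e_comm_e
      rw [c_add_left, c_add_right, c_mul_self, c_mul_self]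
  ev x := by
    induction x using ind with
    | h0 => exact ⟨0, fun m _ => ⟨Commute.zero_left _, Commute.zero_left _⟩⟩
    | ha f g hf hg =>
      obtain ⟨N, hN⟩ := hf
      obtain ⟨M, hM⟩ := hg
      refine ⟨max N M, fun m hm => ?_⟩
      have h1 := hN m (le_trans (le_max_left _ _) hm)
      have h2 := hM m (le_trans (le_max_right _ _) hm)
      exact ⟨h1.1.add_left h2.1, h1.2.add_left h2.2⟩
    | hs a x =>
      refine ⟨(a.1.support ∪ a.2.support).sup id + 1, fun m hm => ?_⟩
      have hm' : m ∉ a.1.support ∪ a.2.support := by
        intro h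
        have := Finset.le_sup (f := id) h
        simp only [id] at this
        omega
      rw [Finset.mem_union, not_or, Finsupp.notMem_support_iff, Finsupp.notMem_support_iff] at hm'
      constructor
      · apply e_comm_e
        rw [c_ai_left, c_ai_right, hm'.2]; simp
      · apply e_comm_e
        rw [c_aj_right, c_aj_left, hm'.1]; simp
  gen x hx y := e_int_mul (RingHom.id Tw) x (fun t => (e_zero_central t x).symm)
    (fun m => (hx m).1) (fun m => (hx m).2) y

/-! ### The division ring of fractions -/

theorem exists_ore (r : Tw) (s : nonZeroDivisors Tw) :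
    ∃ (r' : Tw) (s' : nonZeroDivisors Tw), s' * r = r' * s := by
  have hint := qTw.isInt (s : Tw)
  obtain ⟨z, hz0, u, hu⟩ := IsAlgebraic.exists_nonzero_dvd hint.isAlgebraic s.2
  have hz : ∀ x : Tw, (z : Tw) * x = x * z := fun x => (Subring.mem_center_iff.1 z.2 x).symm
  have hz' : (z : Tw) = s * u := hu
  have hs0 : (s : Tw) ≠ 0 := nonZeroDivisors.ne_zero s.2
  have hus : u * s = z := by
    have h1 : (s : Tw) * (u * s) = s * z := by
      rw [← mul_assoc, ← hz', hz]
    exact mul_left_cancel₀ hs0 h1
  have hz0' : (z : Tw) ≠ 0 := by
    intro h; apply hz0; exact Subtype.ext h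
  refine ⟨r * u, ⟨z, mem_nonZeroDivisors_of_ne_zero hz0'⟩, ?_⟩
  change (z : Tw) * r = r * u * s
  rw [mul_assoc, hus, hz]

noncomputable instance instOre : OreLocalization.OreSet (nonZeroDivisors Tw) :=
  (OreLocalization.nonempty_oreSet_iff_of_noZeroDivisors.2 exists_ore).some

/-- The division ring of fractions of the twisted group algebra. -/
abbrev K : Type := OreLocalization (nonZeroDivisors Tw) Tw

noncomputable example : DivisionRing K := inferInstance

/-- The canonical map. -/
noncomputable def num : Tw →+* K := OreLocalization.numeratorRingHom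

theorem num_injective : Function.Injective num :=
  OreLocalization.numeratorHom_inj (le_of_eq_of_le rfl (by
    intro x hx
    exact (mem_nonZeroDivisors_iff.1 hx).1))

theorem num_ne_zero {x : Tw} (hx : x ≠ 0) : num x ≠ 0 := by
  intro h; apply hx; apply num_injective; rw [h, map_zero]

theorem frac (x : K) : ∃ (s r : Tw), s ≠ 0 ∧ x = (num s)⁻¹ * num r := by
  induction x using OreLocalization.ind with
  | _ r s =>
    refine ⟨s, r, nonZeroDivisors.ne_zero s.2, ?_⟩
    have hs : num (s : Tw) ≠ 0 := num_ne_zero (nonZeroDivisors.ne_zero s.2)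
    rw [eq_inv_mul_iff_mul_eq₀ hs]
    exact OreLocalization.mul_cancel

instance : CharZero K := by
  have : CharZero Tw := by
    let g : ℚ →+* Tw :=
      { toFun := fun t => e 0 t
        map_one' := rfl
        map_mul' := fun x y => by rw [e_mul_e, c_zero_left]; simp
        map_zero' := e_zero 0
        map_add' := e_add 0 }
    exact charZero_of_injective_ringHom g.injective
  exact charZero_of_injective_ringHom num_injective

/-- The rational constants of the twisted group algebra. -/
noncomputable def ratHom : ℚ →+* Tw where
  toFun := fun t => e 0 t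
  map_one' := rfl
  map_mul' := fun x y => by rw [e_mul_e, c_zero_left]; simp
  map_zero' := e_zero 0
  map_add' := e_add 0

theorem map_rat {B : Type} [DivisionRing B] [CharZero B] (f : Tw →+* B) (t : ℚ) :
    f (e 0 t) = (t : B) := by
  have := eq_ratCast (f.comp ratHom) t
  exact this

/-- Two ring elements that commute with everything in the twisted group algebra commute with
everything in its division ring of fractions. -/
theorem comm_of_comm_num (x : K) (h : ∀ y : Tw, Commute x (num y)) (y : K) : Commute x y := by
  obtain ⟨s, r, hs, rfl⟩ := frac y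
  exact (h s).inv_right₀.mul_right (h r)

/-- The quaternion system of the division ring. -/
noncomputable def qK : QSys K where
  i m := Units.map (num : Tw →* K) (qTw.i m)
  j m := Units.map (num : Tw →* K) (qTw.j m)
  half := num qTw.half
  hhalf := by rw [← map_add, qTw.hhalf, map_one]
  hii m n := by
    simp only [Units.coe_map, MonoidHom.coe_coe]
    rw [← map_mul, qTw.hii, map_mul]
  hjj m n := by
    simp only [Units.coe_map, MonoidHom.coe_coe]
    rw [← map_mul, qTw.hjj, map_mul]
  hij m n hmn := by
    simp only [Units.coe_map, MonoidHom.coe_coe]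
    rw [← map_mul, qTw.hij m n hmn, map_mul]
  hanti m := by
    simp only [Units.coe_map, MonoidHom.coe_coe]
    rw [← map_mul, qTw.hanti, map_neg, map_mul]
  hi2 m x := by
    simp only [Units.coe_map, MonoidHom.coe_coe]
    rw [← map_mul]
    apply comm_of_comm_num
    intro y
    change _ * _ = _ * _
    rw [← map_mul, ← map_mul, qTw.hi2]
  hj2 m x := by
    simp only [Units.coe_map, MonoidHom.coe_coe]
    rw [← map_mul]
    apply comm_of_comm_num
    intro y
    change _ * _ = _ * _
    rw [← map_mul, ← map_mul, qTw.hj2]
  ev x := by
    obtain ⟨s, r, hs, rfl⟩ := frac x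
    obtain ⟨N, hN⟩ := qTw.ev s
    obtain ⟨M, hM⟩ := qTw.ev r
    refine ⟨max N M, fun m hm => ?_⟩
    have h1 := hN m (le_trans (le_max_left _ _) hm)
    have h2 := hM m (le_trans (le_max_right _ _) hm)
    have e1 := h1.1.map num
    have e2 := h1.2.map num
    have e3 := h2.1.map num
    have e4 := h2.2.map num
    exact ⟨e1.inv_left₀.mul_left e3, e2.inv_left₀.mul_left e4⟩
  gen x hx y := by
    apply comm_of_comm_num
    intro z
    apply e_int_mul num x
    · intro t
      rw [map_rat]
      exact (Rat.cast_commute t x).symm
    · intro m; exact (hx m).1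
    · intro m; exact (hx m).2

end Pool.Agent.Helper282.KField
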