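import Mathlib
import Pool.Agent.Helper282.KField

set_option autoImplicit false

namespace Pool.Agent.Helper282.KField

open Twisted Twisted.Tw Quat

/-- A monomial substitution: exponents are moved by `h` and rescaled by `χ`. -/
noncomputable def monoFun (h : A → A) (χ : A → ℚ) (f : Tw) : Tw :=
  ⟨f.co.sum fun a x => Finsupp.single (h a) (χ a * x)⟩

theorem monoFun_zero (h : A → A) (χ : A → ℚ) : monoFun h χ 0 = 0 := by
  ext1; simp [monoFun]

theorem monoFun_add (h : A → A) (χ : A → ℚ) (f g : Tw) :
    monoFun h χ (f + g) = monoFun h χ f + monoFun h χ g := by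
  ext1
  simp only [monoFun, co_add]
  apply Finsupp.sum_add_index'
  · intro a; simp
  · intro a x y; rw [mul_add, Finsupp.single_add]

theorem monoFun_e (h : A → A) (χ : A → ℚ) (a : A) (x : ℚ) :
    monoFun h χ (e a x) = e (h a) (χ a * x) := by
  ext1
  simp [monoFun]

/-- Monomial substitutions are ring homomorphisms when they respect the sign rule. -/
noncomputable def monoHom (h : A → A) (χ : A → ℚ) (h0 : h 0 = 0) (hadd : ∀ a b, h (a + b) = h a + h b)
    (hc : ∀ a b, c (h a) (h b) = c a b) (χ0 : χ 0 = 1) (χadd : ∀ a b, χ (a + b) = χ a * χ b) :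
    Tw →+* Tw where
  toFun := monoFun h χ
  map_one' := by
    rw [one_def, monoFun_e, h0, χ0, mul_one]
  map_zero' := monoFun_zero h χ
  map_add' := monoFun_add h χ
  map_mul' f g := by
    induction f using ind with
    | h0 => rw [zero_mul, monoFun_zero, zero_mul]
    | ha f1 f2 h1 h2 => rw [add_mul, monoFun_add, monoFun_add, h1, h2, add_mul]
    | hs a x =>
      induction g using ind with
      | h0 => rw [mul_zero, monoFun_zero, mul_zero]
      | ha f1 f2 h1 h2 => rw [mul_add, monoFun_add, monoFun_add, h1, h2, mul_add]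
      | hs b y =>
        rw [e_mul_e, monoFun_e, monoFun_e, monoFun_e, e_mul_e, hadd, hc, χadd]
        congr 1; ring

theorem monoFun_co (h : A → A) (χ : A → ℚ) (hinj : Function.Injective h) (f : Tw) (a : A) :
    (monoFun h χ f).co (h a) = χ a * f.co a := by
  classical
  unfold monoFun Finsupp.sum
  rw [Finset.sum_apply', Finset.sum_eq_single a]
  · simp
  · intro b _ hb
    rw [Finsupp.single_apply, if_neg (fun hh => hb (hinj hh))]
  · intro ha
    rw [Finsupp.notMem_support_iff.1 ha]
    simp

theorem monoFun_injective (h : A → A) (χ : A → ℚ) (hinj : Function.Injective h)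
    (hχ : ∀ a, χ a ≠ 0) (f : Tw) (hf : monoFun h χ f = 0) : f = 0 := by
  ext1
  ext1 a
  have := monoFun_co h χ hinj f a
  rw [hf] at this
  simp only [co_zero, Finsupp.coe_zero, Pi.zero_apply] at this ⊢
  rcases mul_eq_zero.1 this.symm with h1 | h1
  · exact absurd h1 (hχ a)
  · exact h1

/-- Extension of an injective homomorphism from the twisted group algebra to its division ring
of fractions. -/
theorem exists_ext {B : Type} [DivisionRing B] (f : Tw →+* B) (hf : Function.Injective f) :
    ∃ F : K →+* B, ∀ x, F (num x) = f x := by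
  have hne : ∀ s : nonZeroDivisors Tw, f s ≠ 0 := fun s h =>
    nonZeroDivisors.ne_zero s.2 (hf (by rw [h, map_zero]))
  let fS : nonZeroDivisors Tw →* Bˣ :=
    { toFun := fun s => Units.mk0 (f s) (hne s)
      map_one' := by ext; simp
      map_mul' := by intro a b; ext; simp }
  refine ⟨OreLocalization.universalHom f fS (fun s => rfl), fun x => ?_⟩
  exact OreLocalization.universalHom_commutes f fS (fun s => rfl)

/-- The shift of exponents. -/
noncomputable def shA (a : A) : A := (a.1.mapDomain Nat.succ, a.2.mapDomain Nat.succ)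

theorem pr_shift (b a : ℕ →₀ ℤ) : pr (b.mapDomain Nat.succ) (a.mapDomain Nat.succ) = pr b a := by
  unfold pr
  rw [Finsupp.sum_mapDomain_index]
  · apply Finsupp.sum_congr
    intro x _
    rw [Finsupp.mapDomain_apply Nat.succ_injective]
  · intro b; ring
  · intro b m1 m2; ring

theorem shA_injective : Function.Injective shA := by
  rintro ⟨a1, a2⟩ ⟨b1, b2⟩ hab
  simp only [shA, Prod.mk.injEq] at hab
  have h1 := Finsupp.mapDomain_injective Nat.succ_injective hab.1
  have h2 := Finsupp.mapDomain_injective Nat.succ_injective hab.2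
  simp [h1, h2]

/-- The shift on the twisted group algebra. -/
noncomputable def shT : Tw →+* Tw := monoHom shA (fun _ => 1)
  (by simp [shA]) (by intro a b; simp [shA, Finsupp.mapDomain_add])
  (by intro a b; simp [c, shA, pr_shift]) rfl (by intro a b; simp)

/-- The scaling of the first variable by two. -/
noncomputable def scT : Tw →+* Tw := monoHom id (fun a => (2 : ℚ) ^ (a.1 0))
  rfl (by intro a b; rfl) (by intro a b; rfl) (by simp) (by
    intro a b
    simp only [Prod.fst_add, Finsupp.add_apply]
    exact zpow_add₀ (by norm_num) _ _)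

theorem shT_injective : Function.Injective shT := by
  rw [injective_iff_map_eq_zero]
  intro f hf
  exact monoFun_injective shA _ shA_injective (fun _ => one_ne_zero) f hf

theorem scT_injective : Function.Injective scT := by
  rw [injective_iff_map_eq_zero]
  intro f hf
  exact monoFun_injective id _ Function.injective_id
    (fun a => zpow_ne_zero _ (by norm_num)) f hf

theorem scT_shT (x : Tw) : scT (shT x) = shT x := by
  change monoFun _ _ (monoFun _ _ x) = monoFun _ _ x
  induction x using ind with
  | h0 => simp [monoFun_zero]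
  | ha f g hf hg => rw [monoFun_add, monoFun_add, hf, hg]
  | hs a x =>
    rw [monoFun_e, monoFun_e]
    have : (shA a).1 0 = 0 := by
      simp only [shA]
      apply Finsupp.mapDomain_of_notMem_range
      rintro ⟨n, hn⟩
      exact Nat.succ_ne_zero n hn
    rw [this]
    simp

theorem not_comm {T : Type} [DivisionRing T] (Q : QSys T) : ¬ Commute (Q.j 0 : T) (Q.i 0) := by
  intro h
  have h1 : (Q.i 0 : T) * Q.j 0 = -(Q.j 0 * Q.i 0) := Q.hanti 0
  have h2 : (Q.j 0 : T) * Q.i 0 = Q.i 0 * Q.j 0 := h
  rw [h2] at h1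
  have h3 : (Q.i 0 : T) * Q.j 0 ≠ 0 := mul_ne_zero (Units.ne_zero _) (Units.ne_zero _)
  have h4 : (Q.i 0 : T) * Q.j 0 + Q.i 0 * Q.j 0 = 0 := by
    nth_rewrite 1 [h1]; simp
  have h5 := Q.half_mul_add ((Q.i 0 : T) * Q.j 0)
  rw [h4, mul_zero] at h5
  exact h3 h5.symm

theorem transc {D : Type} [DivisionRing D] [CharZero D] (sh sc : D →+* D) (t : D)
    (ht0 : t ≠ 0) (hscsh : ∀ x, sc (sh x) = sh x) (hsct : sc t = 2 * t) (N : ℕ) :
    ∀ (q : ℕ → D), ∑ n ∈ Finset.range N, sh (q n) * t ^ n = 0 → ∀ n < N, q n = 0 := by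
  induction N with
  | zero => intro q _ n hn; omega
  | succ N ih =>
    intro q hq n hn
    have h1 : ∑ k ∈ Finset.range (N + 1), sh (q k) * (2 * t) ^ k = 0 := by
      have := congrArg sc hq
      rw [map_sum, map_zero] at this
      rw [← this]
      apply Finset.sum_congr rfl
      intro k _
      rw [map_mul, map_pow, hscsh, hsct]
    have h2 : ∀ k : ℕ, (2 * t) ^ k = ((2 : ℚ) ^ k : ℚ) * t ^ k := by
      intro k
      have hc : Commute (2 : D) t := Nat.cast_commute 2 t
      rw [hc.mul_pow]
      push_cast; rfl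
    have h3 : ∑ k ∈ Finset.range N,
        sh (q k * (((2 : ℚ) ^ k - (2 : ℚ) ^ N : ℚ) : D)) * t ^ k = 0 := by
      have e1 : ∀ k, sh (q k * (((2 : ℚ) ^ k - (2 : ℚ) ^ N : ℚ) : D)) * t ^ k
          = sh (q k) * (2 * t) ^ k - (((2 : ℚ) ^ N : ℚ) : D) * (sh (q k) * t ^ k) := by
        intro k
        rw [map_mul, map_ratCast, h2 k, Rat.cast_sub, mul_sub, sub_mul, mul_assoc,
          ← mul_assoc (((2 : ℚ) ^ N : ℚ) : D), (Rat.cast_commute ((2 : ℚ) ^ N) (sh (q k))).eq]
      have e2 : ∑ k ∈ Finset.range (N + 1),
        sh (q k * (((2 : ℚ) ^ k - (2 : ℚ) ^ N : ℚ) : D)) * t ^ k = 0 := by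
        rw [Finset.sum_congr rfl (fun k _ => e1 k), Finset.sum_sub_distrib, h1,
          ← Finset.mul_sum, hq]
        simp
      rw [Finset.sum_range_succ] at e2
      simpa using e2
    have h4 := ih _ h3
    have h5 : ∀ k < N, q k = 0 := by
      intro k hk
      have h6 := h4 k hk
      rcases mul_eq_zero.1 h6 with h7 | h7
      · exact h7
      · exfalso
        rw [Rat.cast_eq_zero, sub_eq_zero] at h7
        have := pow_right_injective₀ (by norm_num : (0 : ℚ) < 2) (by norm_num) h7
        omega
    rcases Nat.lt_succ_iff_lt_or_eq.1 hn with h | h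
    · exact h5 n h
    · subst h
      rw [Finset.sum_range_succ, Finset.sum_eq_zero (fun k hk => by
        rw [h5 k (Finset.mem_range.1 hk), map_zero, zero_mul]), zero_add] at hq
      rcases mul_eq_zero.1 hq with h7 | h7
      · exact (map_eq_zero sh).1 h7
      · exact absurd h7 (pow_ne_zero _ ht0)

theorem sh_comm (y : Tw) : Commute (shT y) (e (ai 0) 1) := by
  change Commute (monoFun _ _ y) _
  induction y using ind with
  | h0 => rw [monoFun_zero]; exact Commute.zero_left _
  | ha f g hf hg => rw [monoFun_add]; exact hf.add_left hg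
  | hs a x =>
    rw [monoFun_e]
    apply e_comm_e
    rw [c_ai_left, c_ai_right]
    have : (shA a).2 0 = 0 := by
      simp only [shA]
      apply Finsupp.mapDomain_of_notMem_range
      rintro ⟨n, hn⟩
      exact Nat.succ_ne_zero n hn
    rw [this]; simp

theorem sc_ai : scT (e (ai 0) 1) = e 0 2 * e (ai 0) 1 := by
  change monoFun _ _ _ = _
  rw [monoFun_e, e_mul_e, c_zero_left]
  simp [ai]

/-- The main output of this file: a division ring with an endomorphism and a non-central
element commuting with, and transcendental over, the image of the endomorphism. -/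
theorem exists_division_ring :
    ∃ (D : Type) (_ : DivisionRing D) (r : D →+* D) (t : D),
      (∀ x, Commute (r x) t) ∧ (∃ b, ¬ Commute b t) ∧
      (∀ (N : ℕ) (q : ℕ → D), ∑ n ∈ Finset.range N, r (q n) * t ^ n = 0 → ∀ n < N, q n = 0) := by
  obtain ⟨sh, hsh⟩ := exists_ext (num.comp shT) (num_injective.comp shT_injective)
  obtain ⟨sc, hsc⟩ := exists_ext (num.comp scT) (num_injective.comp scT_injective)
  have hsh' : ∀ x, sh (num x) = num (shT x) := hsh
  have hsc' : ∀ x, sc (num x) = num (scT x) := hsc
  have hscsh : ∀ x, sc (sh x) = sh x := by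
    intro x
    obtain ⟨s, r, hs, rfl⟩ := frac x
    rw [map_mul, map_inv₀, hsh', hsh', map_mul, map_inv₀, hsc', hsc', scT_shT, scT_shT]
  have ht0 : num (e (ai 0) 1) ≠ 0 := num_ne_zero (eU (ai 0)).ne_zero
  have hsct : sc (num (e (ai 0) 1)) = 2 * num (e (ai 0) 1) := by
    rw [hsc', sc_ai, map_mul, map_rat]
    simp
  refine ⟨K, inferInstance, sh, num (e (ai 0) 1), ?_, ⟨num (e (aj 0) 1), not_comm qK⟩,
    transc sh sc _ ht0 hscsh hsct⟩
  intro x
  obtain ⟨s, r, hs, rfl⟩ := frac x
  rw [map_mul, map_inv₀, hsh', hsh']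
  exact ((sh_comm s).map num).inv_left₀.mul_left ((sh_comm r).map num)

end Pool.Agent.Helper282.KField
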