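import Mathlib

set_option autoImplicit false

namespace Pool.Agent.Helper282.SkewPS

/-- Skew power series: formal sums of x^n a_n, where the coefficients are on the right and
a x = x (r a). -/
structure PS (A : Type) [Ring A] (r : A →+* A) where
  /-- Coefficients. -/
  co : ℕ → A

namespace PS

variable {A : Type} [Ring A] {r : A →+* A}

@[ext] theorem ext' {f g : PS A r} (h : ∀ n, f.co n = g.co n) : f = g := by
  cases f; cases g; congr; funext n; exact h n

instance : Zero (PS A r) := ⟨⟨fun _ => 0⟩⟩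
instance : One (PS A r) := ⟨⟨fun n => if n = 0 then 1 else 0⟩⟩
instance : Add (PS A r) := ⟨fun f g => ⟨fun n => f.co n + g.co n⟩⟩
instance : Neg (PS A r) := ⟨fun f => ⟨fun n => -f.co n⟩⟩
instance : Mul (PS A r) :=
  ⟨fun f g => ⟨fun n => ∑ p ∈ Finset.HasAntidiagonal.antidiagonal n, (r ^ p.2) (f.co p.1) * g.co p.2⟩⟩

@[simp] theorem zero_co (n : ℕ) : (0 : PS A r).co n = 0 := rfl
theorem one_co (n : ℕ) : (1 : PS A r).co n = if n = 0 then 1 else 0 := rfl
@[simp] theorem add_co (f g : PS A r) (n : ℕ) : (f + g).co n = f.co n + g.co n := rfl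
@[simp] theorem neg_co (f : PS A r) (n : ℕ) : (-f).co n = -f.co n := rfl
theorem mul_co (f g : PS A r) (n : ℕ) :
    (f * g).co n = ∑ p ∈ Finset.HasAntidiagonal.antidiagonal n, (r ^ p.2) (f.co p.1) * g.co p.2 := rfl

theorem pow_add_apply (i j : ℕ) (a : A) : (r ^ (i + j)) a = (r ^ i) ((r ^ j) a) := by
  rw [pow_add]; rfl

instance instRing : Ring (PS A r) where
  add_assoc f g h := by ext1 n; simp [add_assoc]
  zero_add f := by ext1 n; simp
  add_zero f := by ext1 n; simp
  add_comm f g := by ext1 n; simp [add_comm]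
  neg_add_cancel f := by ext1 n; simp
  nsmul := nsmulRec
  zsmul := zsmulRec
  left_distrib f g h := by
    ext1 n
    simp only [mul_co, add_co, mul_add, Finset.sum_add_distrib]
  right_distrib f g h := by
    ext1 n
    simp only [mul_co, add_co, map_add, add_mul, Finset.sum_add_distrib]
  zero_mul f := by ext1 n; simp [mul_co]
  mul_zero f := by ext1 n; simp [mul_co]
  one_mul f := by
    ext1 n
    rw [mul_co, Finset.sum_eq_single (0, n)]
    · simp [one_co]
    · rintro ⟨i, j⟩ hij hne
      rw [Finset.HasAntidiagonal.mem_antidiagonal] at hij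
      have : i ≠ 0 := by
        intro h; apply hne; ext <;> simp_all
      simp [one_co, this]
    · intro h; exact absurd (by simp) h
  mul_one f := by
    ext1 n
    rw [mul_co, Finset.sum_eq_single (n, 0)]
    · simp [one_co]
    · rintro ⟨i, j⟩ hij hne
      rw [Finset.HasAntidiagonal.mem_antidiagonal] at hij
      have : j ≠ 0 := by
        intro h; apply hne; ext <;> simp_all
      simp [one_co, this]
    · intro h; exact absurd (by simp) h
  mul_assoc f g h := by
    ext1 n
    simp only [mul_co, Finset.sum_mul, Finset.mul_sum, Finset.sum_sigma', map_sum, map_mul]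
    apply Finset.sum_nbij' (fun ⟨⟨_i, j⟩, ⟨k, l⟩⟩ ↦ ⟨(k, l + j), (l, j)⟩)
      (fun ⟨⟨i, _j⟩, ⟨k, l⟩⟩ ↦ ⟨(i + k, l), (i, k)⟩)
    · rintro ⟨⟨i, j⟩, ⟨k, l⟩⟩ h1
      rw [Finset.mem_sigma, Finset.HasAntidiagonal.mem_antidiagonal,
        Finset.HasAntidiagonal.mem_antidiagonal] at h1 ⊢
      change i + j = n ∧ k + l = i at h1
      change k + (l + j) = n ∧ l + j = l + j
      omega
    · rintro ⟨⟨i, j⟩, ⟨k, l⟩⟩ h1
      rw [Finset.mem_sigma, Finset.HasAntidiagonal.mem_antidiagonal,
        Finset.HasAntidiagonal.mem_antidiagonal] at h1 ⊢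
      change i + j = n ∧ k + l = j at h1
      change (i + k) + l = n ∧ i + k = i + k
      omega
    · rintro ⟨⟨i, j⟩, ⟨k, l⟩⟩ h1
      simp only [Finset.mem_sigma, Finset.HasAntidiagonal.mem_antidiagonal] at h1
      obtain ⟨h1, h2⟩ := h1
      subst h2
      rfl
    · rintro ⟨⟨i, j⟩, ⟨k, l⟩⟩ h1
      simp only [Finset.mem_sigma, Finset.HasAntidiagonal.mem_antidiagonal] at h1
      obtain ⟨h1, h2⟩ := h1
      subst h2
      rfl
    · rintro ⟨⟨i, j⟩, ⟨k, l⟩⟩ h1
      simp only [Finset.mem_sigma, Finset.HasAntidiagonal.mem_antidiagonal] at h1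
      obtain ⟨h1, h2⟩ := h1
      subst h2
      simp only
      rw [add_comm l j, pow_add_apply, mul_assoc]

/-- The variable. -/
def X : PS A r := ⟨fun n => if n = 1 then 1 else 0⟩

/-- Constants. -/
def C (a : A) : PS A r := ⟨fun n => if n = 0 then a else 0⟩

theorem C_co (a : A) (n : ℕ) : (C a : PS A r).co n = if n = 0 then a else 0 := rfl

theorem X_mul_zero (f : PS A r) : (X * f).co 0 = 0 := by
  rw [mul_co]; simp [X]

theorem X_mul_succ (f : PS A r) (n : ℕ) : (X * f).co (n + 1) = f.co n := by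
  rw [mul_co, Finset.sum_eq_single (1, n)]
  · simp [X]
  · rintro ⟨i, j⟩ hij hne
    rw [Finset.HasAntidiagonal.mem_antidiagonal] at hij
    have : i ≠ 1 := by
      intro h; apply hne; ext <;> (simp_all; try omega)
    simp [X, this]
  · intro h; exact absurd (by simp [add_comm]) h

theorem X_mul_inj {f g : PS A r} (h : X * f = X * g) : f = g := by
  ext1 n
  rw [← X_mul_succ f, ← X_mul_succ g, h]

theorem mul_X_zero (f : PS A r) : (f * X).co 0 = 0 := by
  rw [mul_co]; simp [X]

theorem C_mul_X (a : A) : (C a : PS A r) * X = X * C (r a) := by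
  ext1 n
  cases n with
  | zero => rw [mul_X_zero, X_mul_zero]
  | succ n =>
    rw [X_mul_succ, mul_co, Finset.sum_eq_single (n, 1)]
    · rw [C_co, C_co]
      split_ifs with h
      · simp [X]
      · simp
    · rintro ⟨i, j⟩ hij hne
      rw [Finset.HasAntidiagonal.mem_antidiagonal] at hij
      have : j ≠ 1 := by
        intro h; apply hne; ext <;> simp_all
      simp [X, this]
    · intro h; exact absurd (by simp) h

theorem C_mul_co (a : A) (f : PS A r) (n : ℕ) : (C a * f).co n = (r ^ n) a * f.co n := by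
  rw [mul_co, Finset.sum_eq_single (0, n)]
  · simp [C_co]
  · rintro ⟨i, j⟩ hij hne
    rw [Finset.HasAntidiagonal.mem_antidiagonal] at hij
    have : i ≠ 0 := by
      intro h; apply hne; ext <;> simp_all
    simp [C_co, this]
  · intro h; exact absurd (by simp) h

theorem mul_C_co (a : A) (f : PS A r) (n : ℕ) : (f * C a).co n = f.co n * a := by
  rw [mul_co, Finset.sum_eq_single (n, 0)]
  · simp [C_co]
  · rintro ⟨i, j⟩ hij hne
    rw [Finset.HasAntidiagonal.mem_antidiagonal] at hij
    have : j ≠ 0 := by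
      intro h; apply hne; ext <;> simp_all
    simp [C_co, this]
  · intro h; exact absurd (by simp) h

theorem C_mul_C (a b : A) : (C a : PS A r) * C b = C (a * b) := by
  ext1 n
  rw [mul_C_co, C_co, C_co]
  split_ifs <;> simp

theorem mul_co_zero (f g : PS A r) : (f * g).co 0 = f.co 0 * g.co 0 := by
  rw [mul_co]; simp

theorem mul_co_one (f g : PS A r) : (f * g).co 1 = r (f.co 0) * g.co 1 + f.co 1 * g.co 0 := by
  rw [mul_co, Finset.Nat.antidiagonal_succ]; simp

/-- Removing the constant term. -/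
def tail (f : PS A r) : PS A r := ⟨fun n => f.co (n + 1)⟩

theorem eq_C_add (f : PS A r) : f = C (f.co 0) + X * tail f := by
  ext1 n
  cases n with
  | zero => simp [C_co, X_mul_zero]
  | succ n => simp [C_co, X_mul_succ, tail]

theorem pow_ne_zero' (hr : Function.Injective r) (n : ℕ) {a : A} (ha : a ≠ 0) :
    (r ^ n) a ≠ 0 := by
  induction n with
  | zero => simpa using ha
  | succ n ih =>
    rw [add_comm, pow_add_apply, pow_one]
    intro h
    exact ih (hr (by rw [h, map_zero]))

theorem mul_ne_zero' [NoZeroDivisors A] (hr : Function.Injective r) {f g : PS A r}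
    (hf : f ≠ 0) (hg : g ≠ 0) : f * g ≠ 0 := by
  classical
  have hf' : ∃ n, f.co n ≠ 0 := by
    by_contra h; push Not at h; exact hf (PS.ext' h)
  have hg' : ∃ n, g.co n ≠ 0 := by
    by_contra h; push Not at h; exact hg (PS.ext' h)
  set n := Nat.find hf' with hn
  set m := Nat.find hg' with hm
  have hfn : f.co n ≠ 0 := Nat.find_spec hf'
  have hgm : g.co m ≠ 0 := Nat.find_spec hg'
  have hfl : ∀ k < n, f.co k = 0 := fun k hk => by
    by_contra h; exact Nat.find_min hf' hk h
  have hgl : ∀ k < m, g.co k = 0 := fun k hk => by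
    by_contra h; exact Nat.find_min hg' hk h
  intro h
  have h1 : (f * g).co (n + m) = 0 := by rw [h]; rfl
  rw [mul_co, Finset.sum_eq_single (n, m)] at h1
  · rcases mul_eq_zero.1 h1 with h2 | h2
    · exact pow_ne_zero' hr m hfn h2
    · exact hgm h2
  · rintro ⟨i, j⟩ hij hne
    rw [Finset.HasAntidiagonal.mem_antidiagonal] at hij
    rcases lt_trichotomy i n with h2 | h2 | h2
    · simp [hfl i h2]
    · exfalso; apply hne; ext
      · exact h2
      · simp only at hij ⊢; omega
    · have : j < m := by simp only at hij; omega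
      simp [hgl j this]
  · intro h; exact absurd (by simp) h

/-- The recursive solution of a division problem. -/
def solve (f g : ℕ → A) (r : A →+* A) (n : ℕ) (w : ℕ → A) : ℕ → A
  | 0 => w 0
  | m + 1 => w (m + 1) * (g (n + (m + 1))
      - ∑ j : Fin (m + 1), (r ^ (j : ℕ)) (f (n + (m + 1) - j)) * solve f g r n w j)

theorem solve_succ (f g : ℕ → A) (r : A →+* A) (n : ℕ) (w : ℕ → A) (m : ℕ) :
    solve f g r n w (m + 1) = w (m + 1) * (g (n + (m + 1))
      - ∑ j ∈ Finset.range (m + 1), (r ^ j) (f (n + (m + 1) - j)) * solve f g r n w j) := by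
  rw [solve, Finset.sum_range]

theorem exists_solution (f g : PS A r) (n : ℕ) (hf : ∀ k < n, f.co k = 0)
    (hg : ∀ k < n, g.co k = 0) (w : ℕ → A) (h0 : f.co n * w 0 = g.co n)
    (hw : ∀ m, 0 < m → (r ^ m) (f.co n) * w m = 1) : ∃ s : PS A r, g = f * s := by
  refine ⟨⟨solve f.co g.co r n w⟩, ?_⟩
  ext1 k
  rw [mul_co]
  rcases lt_or_ge k n with hk | hk
  · rw [hg k hk]
    symm
    apply Finset.sum_eq_zero
    rintro ⟨i, j⟩ hij
    rw [Finset.HasAntidiagonal.mem_antidiagonal] at hij
    have : i < n := by simp only at hij; omega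
    simp [hf i this]
  · obtain ⟨m, rfl⟩ := Nat.exists_eq_add_of_le hk
    rw [Finset.Nat.sum_antidiagonal_eq_sum_range_succ_mk]
    simp only
    rw [← Finset.sum_range_reflect]
    -- split off the nonzero part
    have h1 : ∑ j ∈ Finset.range (n + m).succ,
        (r ^ (n + m - ((n + m).succ - 1 - j))) (f.co ((n + m).succ - 1 - j)) *
          solve f.co g.co r n w (n + m - ((n + m).succ - 1 - j))
        = ∑ j ∈ Finset.range (m + 1), (r ^ j) (f.co (n + m - j)) * solve f.co g.co r n w j := by
      have h2 : ∀ j ∈ Finset.range (n + m).succ,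
          (r ^ (n + m - ((n + m).succ - 1 - j))) (f.co ((n + m).succ - 1 - j)) *
            solve f.co g.co r n w (n + m - ((n + m).succ - 1 - j))
          = (r ^ j) (f.co (n + m - j)) * solve f.co g.co r n w j := by
        intro j hj
        rw [Finset.mem_range] at hj
        have e1 : (n + m).succ - 1 - j = n + m - j := by omega
        have e2 : n + m - (n + m - j) = j := by omega
        rw [e1, e2]
      rw [Finset.sum_congr rfl h2]
      symm
      apply Finset.sum_subset
      · intro j hj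
        rw [Finset.mem_range] at hj ⊢
        omega
      · intro j hj hj'
        rw [Finset.mem_range] at hj hj'
        have : n + m - j < n := by omega
        simp [hf _ this]
    rw [h1, Finset.sum_range_succ]
    cases m with
    | zero =>
      simp [solve, h0]
    | succ m =>
      rw [solve_succ, ← mul_assoc]
      have e3 : n + (m + 1) - (m + 1) = n := by omega
      rw [e3, hw (m + 1) (Nat.succ_pos m), one_mul]
      abel

/-- If nonzero coefficients become units under the endomorphism and right ideals of the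
coefficient ring are principal, then right ideals of the skew power series ring are principal. -/
theorem principal (hu : ∀ a : A, a ≠ 0 → IsUnit (r a)) (hr : Function.Injective r)
    (hA : ∀ I : AddSubmonoid A, (∀ x s : A, x ∈ I → x * s ∈ I) →
      ∃ a : A, ∀ x : A, x ∈ I ↔ ∃ s : A, x = a * s)
    (I : AddSubmonoid (PS A r)) (hI : ∀ x s : PS A r, x ∈ I → x * s ∈ I) :
    ∃ a : PS A r, ∀ x : PS A r, x ∈ I ↔ ∃ s : PS A r, x = a * s := by
  classical
  by_cases hne : ∃ n, ∃ f ∈ I, f.co n ≠ 0
  · set n := Nat.find hne with hn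
    have hmin : ∀ k < n, ∀ f ∈ I, f.co k = 0 := by
      intro k hk f hf
      by_contra h
      exact Nat.find_min hne hk ⟨f, hf, h⟩
    obtain ⟨f0, hf0, hf0n⟩ : ∃ f ∈ I, f.co n ≠ 0 := Nat.find_spec hne
    let L : AddSubmonoid A :=
      { carrier := {a | ∃ f ∈ I, f.co n = a}
        zero_mem' := ⟨0, I.zero_mem, rfl⟩
        add_mem' := by
          rintro a b ⟨f, hf, rfl⟩ ⟨g, hg, rfl⟩
          exact ⟨f + g, I.add_mem hf hg, rfl⟩ }
    obtain ⟨b, hb⟩ := hA L (by
      rintro a s ⟨f, hf, rfl⟩
      exact ⟨f * C s, hI _ _ hf, mul_C_co _ _ _⟩)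
    obtain ⟨f, hfI, hfn⟩ : ∃ f ∈ I, f.co n = b := (hb b).2 ⟨1, by simp⟩
    have hb0 : b ≠ 0 := by
      rintro rfl
      obtain ⟨s, hs⟩ := (hb _).1 ⟨f0, hf0, rfl⟩
      rw [zero_mul] at hs
      exact hf0n hs
    refine ⟨f, fun g => ⟨fun hg => ?_, ?_⟩⟩
    · obtain ⟨s0, hs0⟩ := (hb _).1 ⟨g, hg, rfl⟩
      have hunit : ∀ m : ℕ, 0 < m → ∃ v, (r ^ m) (f.co n) * v = 1 := by
        intro m hm
        obtain ⟨m, rfl⟩ := Nat.exists_eq_succ_of_ne_zero hm.ne'
        have h1 : (r ^ (m + 1)) (f.co n) = r ((r ^ m) (f.co n)) := by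
          rw [add_comm, pow_add_apply, pow_one]
        rw [Nat.succ_eq_add_one, h1]
        have h2 : (r ^ m) (f.co n) ≠ 0 := pow_ne_zero' hr m (by rw [hfn]; exact hb0)
        obtain ⟨u, hu'⟩ := hu _ h2
        exact ⟨(u⁻¹ : Aˣ).val, by rw [← hu', Units.mul_inv]⟩
      let w : ℕ → A := fun m => if h : 0 < m then (hunit m h).choose else s0
      refine exists_solution f g n (fun k hk => hmin k hk f hfI) (fun k hk => hmin k hk g hg) w
        ?_ ?_
      · have : w 0 = s0 := by simp [w]
        rw [this, hfn, ← hs0]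
      · intro m hm
        have : w m = (hunit m hm).choose := by simp [w, hm]
        rw [this]
        exact (hunit m hm).choose_spec
    · rintro ⟨s, rfl⟩
      exact hI _ _ hfI
  · push Not at hne
    refine ⟨0, fun x => ⟨fun hx => ⟨0, ?_⟩, ?_⟩⟩
    · ext1 n
      simp [hne n x hx]
    · rintro ⟨s, rfl⟩
      simp [I.zero_mem]

end PS

end Pool.Agent.Helper282.SkewPS
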